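import Mathlib

/-!
Interfaces for the disproof of Q1 of MP_cd1519_an (frozen statement S06180).
Plan: SWLite -> StarStar -> MaximalMoebius -> S06180.
-/

set_option autoImplicit false

namespace Pool.Agent.MobQ

open Finset

/-- The Moebius function with real values. -/
noncomputable def mu (n : ℕ) : ℝ := ((ArithmeticFunction.moebius n : ℤ) : ℝ)

/-- (M): the maximal inequality for Moebius averages, uniform over all bounded finitely supported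
sequences. -/
def MaximalMoebius : Prop :=
  ∀ ε : ℝ, 0 < ε → ∀ δ : ℝ, 0 < δ → ∃ N₀ : ℕ, ∀ (P : ℕ) (w : ℕ → ℝ),
    (∀ n, |w n| ≤ 1) → (∀ n, P ≤ n → w n = 0) →
    (({p : ℕ | p < P ∧ ∃ N : ℕ, N₀ ≤ N ∧
      ε * (N : ℝ) < |∑ n ∈ range N, w (p + n) * mu n|}.ncard : ℕ) : ℝ) ≤ δ * (P : ℝ)

/-- (SS): up to a small error in mean square, the Moebius function on an initial segment has
exponential sums smaller than `N (log N)^(-3/5)`, uniformly in the frequency. -/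
def StarStar : Prop :=
  ∀ ε : ℝ, 0 < ε → ∃ N₀ : ℕ, ∀ N : ℕ, N₀ ≤ N → ∃ v₁ v₂ : ℕ → ℝ,
    (∀ n, n < N → mu n = v₁ n + v₂ n) ∧
    (∑ n ∈ range N, v₁ n ^ 2 ≤ ε * (N : ℝ)) ∧
    (∀ θ : ℝ, ‖∑ n ∈ range N, (v₂ n : ℂ) *
        Complex.exp (2 * Real.pi * Complex.I * (θ : ℂ) * (n : ℂ))‖
      ≤ (N : ℝ) * (Real.log N) ^ (-(3 / 5) : ℝ))

/-- Moebius in residue classes to moduli up to `(log x)^(5/4)` with arbitrary power of log
saving. -/
def SWLite : Prop :=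
  ∀ A : ℕ, ∃ C : ℝ, ∀ x q b : ℕ, 3 ≤ x → 1 ≤ q → (q : ℝ) ≤ (Real.log x) ^ (5 / 4 : ℝ) →
    |∑ n ∈ (Icc 1 x).filter (fun n => n % q = b % q), mu n| ≤ C * (x : ℝ) / (Real.log x) ^ A

/-- Lower bound at 1 for real nonprincipal characters. -/
def RealLower : Prop :=
  ∃ c : ℝ, 0 < c ∧ ∀ (q : ℕ) [NeZero q] (χ : DirichletCharacter ℂ q), χ ≠ 1 → χ ^ 2 = 1 →
    c / (q : ℝ) ^ (2 / 3 : ℝ) ≤ ‖DirichletCharacter.LFunction χ 1‖

/-- Tauberian inversion: bounds on the line for the k-th derivative of a Dirichlet series with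
bounded coefficients give cancellation in the partial sums. -/
def Tauber : Prop :=
  ∀ k m : ℕ, ∃ C : ℝ, ∀ (a : ℕ → ℂ) (B : ℝ), (∀ n, ‖a n‖ ≤ 1) → 1 ≤ B →
    (∀ σ t : ℝ, 0 < σ → σ ≤ 1 →
      ‖LSeries (fun n => a n * ((Real.log n : ℝ) : ℂ) ^ k) (1 + (σ : ℂ) + (t : ℂ) * Complex.I)‖
        ≤ B * (Real.log (|t| + 3)) ^ m) →
    ∀ x : ℕ, 16 ≤ x →
      ‖∑ n ∈ Icc 1 x, a n‖ ≤
        C * B * (x : ℝ) * (Real.log (Real.log x)) ^ (m + 1) / (Real.log x) ^ k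

end Pool.Agent.MobQ
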