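import Mathlib
import Pool.Agent.Helper25.Expo

set_option autoImplicit false

namespace Pool.Agent.MobQ

open Finset Pool.Agent.Helper25

lemma sin_ge_round (β : ℝ) : 2 * |β - round β| ≤ |Real.sin (Real.pi * β)| := by
  have h1 : |Real.sin (Real.pi * β)| = |Real.sin (Real.pi * (β - round β))| := by
    have : Real.pi * (β - round β) = Real.pi * β - (round β : ℤ) * Real.pi := by ring
    rw [this, Real.sin_sub_int_mul_pi, abs_mul, abs_zpow, abs_neg, abs_one, one_zpow, one_mul]
  have h2 : |Real.sin (Real.pi * (β - round β))| = Real.sin (Real.pi * |β - round β|) := by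
    have h3 : 0 ≤ Real.sin (Real.pi * |β - round β|) := by
      apply Real.sin_nonneg_of_nonneg_of_le_pi
      · positivity
      · have := abs_sub_round β
        nlinarith [Real.pi_pos]
    rcases abs_cases (β - round β) with ⟨h, _⟩ | ⟨h, _⟩
    · rw [← h] at *
      rw [abs_abs] at *
      rw [abs_of_nonneg h3]
    · rw [h]
      rw [h] at h3
      rw [mul_neg, Real.sin_neg] at *
      rw [abs_of_nonpos (by linarith)]
  rw [h1, h2]
  have h4 : |β - round β| ≤ 1 / 2 := abs_sub_round β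
  have h5 := Real.mul_le_sin (x := Real.pi * |β - round β|) (by positivity)
    (by nlinarith [Real.pi_pos])
  have h6 : 2 / Real.pi * (Real.pi * |β - round β|) = 2 * |β - round β| := by
    field_simp
  linarith

lemma geo_le_card (β : ℝ) (M : ℕ) : ‖∑ i ∈ range M, ex (β * i)‖ ≤ M := by
  calc ‖∑ i ∈ range M, ex (β * i)‖ ≤ ∑ i ∈ range M, ‖ex (β * i)‖ := norm_sum_le _ _
    _ = M := by simp [norm_ex]

lemma geo_le_div (β : ℝ) (M q k : ℕ) (hk : 1 ≤ k) (hq : 1 ≤ q)
    (h : (k : ℝ) / (2 * q) ≤ |β - round β|) :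
    ‖∑ i ∈ range M, ex (β * i)‖ ≤ (q : ℝ) / k := by
  have hk' : (0 : ℝ) < k := by exact_mod_cast hk
  have hq' : (0 : ℝ) < q := by exact_mod_cast hq
  have h1 := sin_ge_round β
  have h2 : (k : ℝ) / q ≤ |Real.sin (Real.pi * β)| := by
    have : (k : ℝ) / q = 2 * ((k : ℝ) / (2 * q)) := by field_simp
    linarith
  have h3 : 0 < (k : ℝ) / q := by positivity
  have h4 : Real.sin (Real.pi * β) ≠ 0 := by
    intro h0
    rw [h0, abs_zero] at h2
    linarith
  refine (geom_le h4 M).trans ?_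
  calc 1 / |Real.sin (Real.pi * β)| ≤ 1 / ((k : ℝ) / q) := one_div_le_one_div_of_le h3 h2
    _ = (q : ℝ) / k := by field_simp

/-- separation of the multiples of theta -/
lemma sep {θ : ℝ} {a : ℤ} {q : ℕ} (hq : 1 ≤ q) (hc : IsCoprime a (q : ℤ))
    (hθ : |θ - a / q| ≤ 1 / (q : ℝ) ^ 2) {d : ℤ} (hd : d ≠ 0) (hd2 : 2 * |d| ≤ q) (z : ℤ) :
    1 / (2 * (q : ℝ)) ≤ |d * θ - z| := by
  have hq' : (0 : ℝ) < q := by exact_mod_cast hq
  have h1 : d * a - z * q ≠ 0 := by
    intro h0
    have h2 : (q : ℤ) ∣ d * a := ⟨z, by linarith⟩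
    have h3 : (q : ℤ) ∣ d := hc.symm.dvd_of_dvd_mul_right h2
    have h4 : (q : ℤ) ≤ |d| := Int.le_of_dvd (abs_pos.mpr hd) ((dvd_abs _ _).mpr h3)
    have h5 : 0 < |d| := abs_pos.mpr hd
    linarith
  have h2 : (1 : ℝ) ≤ |(d : ℝ) * a - z * q| := by
    have : (1 : ℤ) ≤ |d * a - z * q| := Int.one_le_abs h1
    exact_mod_cast this
  have h3 : 1 / (q : ℝ) ≤ |(d : ℝ) * (a / q) - z| := by
    have : (d : ℝ) * (a / q) - z = ((d : ℝ) * a - z * q) / q := by field_simp
    rw [this, abs_div, abs_of_pos hq']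
    gcongr
  have h4 : |(d : ℝ) * (θ - a / q)| ≤ 1 / (2 * q) := by
    rw [abs_mul]
    have h5 : |(d : ℝ)| ≤ q / 2 := by
      have : (2 : ℝ) * |(d : ℝ)| ≤ q := by exact_mod_cast hd2
      linarith
    calc |(d : ℝ)| * |θ - a / q| ≤ (q / 2) * (1 / (q : ℝ) ^ 2) := by gcongr
      _ = 1 / (2 * q) := by field_simp
  have h6 : (d : ℝ) * (a / q) - z = (d * θ - z) - d * (θ - a / q) := by ring
  have h7 : 1 / (q : ℝ) = 1 / (2 * q) + 1 / (2 * q) := by field_simp; norm_num
  rw [h6] at h3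
  have h8 := abs_sub (d * θ - z) (d * (θ - a / q))
  linarith

lemma harm_le (q : ℕ) : ∑ k ∈ Icc 1 q, (q : ℝ) / k ≤ q * (1 + Real.log q) := by
  have h1 : ∑ k ∈ Icc 1 q, (q : ℝ) / k = q * ∑ k ∈ Icc 1 q, ((k : ℝ))⁻¹ := by
    rw [Finset.mul_sum]
    rfl
  rw [h1]
  have h2 := harmonic_le_one_add_log q
  have h3 : ((harmonic q : ℚ) : ℝ) = ∑ k ∈ Icc 1 q, ((k : ℝ))⁻¹ := by
    rw [harmonic_eq_sum_Icc]
    push_cast
    rfl
  rw [h3] at h2
  gcongr

/-- one block of length at most `(q+1)/2` -/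
lemma block_le {θ : ℝ} {a : ℤ} {q : ℕ} (hq : 1 ≤ q) (hc : IsCoprime a (q : ℤ))
    (hθ : |θ - a / q| ≤ 1 / (q : ℝ) ^ 2) (F : ℤ → ℝ) (M : ℝ) (hM : 0 ≤ M)
    (hF : ∀ n, F n ≤ M)
    (hF2 : ∀ n : ℤ, ∀ k : ℕ, 1 ≤ k → (k : ℝ) / (2 * q) ≤ |n * θ - round (n * θ)| → F n ≤ q / k)
    (c : ℤ) (J : ℕ) (hJ : 2 * J ≤ q + 1) :
    ∑ j ∈ range J, F (c + j) ≤ 2 * M + 2 * (q * (1 + Real.log q)) := by
  classical
  have hq' : (0 : ℝ) < q := by exact_mod_cast hq
  set u : ℕ → ℝ := fun j => ((c + j : ℤ) : ℝ) * θ - round (((c + j : ℤ) : ℝ) * θ) with hu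
  set κ : ℕ → ℕ := fun j => ⌊2 * (q : ℝ) * |u j|⌋₊ with hκ
  set H : ℕ → ℝ := fun k => if k = 0 then M else (q : ℝ) / k with hH
  have hH0 : ∀ k, 0 ≤ H k := by
    intro k
    simp only [hH]
    split_ifs
    · exact hM
    · positivity
  have h1 : ∀ j : ℕ, F (c + j) ≤ H (κ j) := by
    intro j
    simp only [hH]
    split_ifs with h0
    · exact hF _
    · apply hF2 _ _ (Nat.one_le_iff_ne_zero.mpr h0)
      have h2 : (κ j : ℝ) ≤ 2 * (q : ℝ) * |u j| := Nat.floor_le (by positivity)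
      rw [div_le_iff₀ (by positivity)]
      push_cast at h2 ⊢
      simp only [hu] at h2
      push_cast at h2
      linarith
  have hκq : ∀ j, κ j ≤ q := by
    intro j
    have h2 : |u j| ≤ 1 / 2 := abs_sub_round _
    have h3 : 2 * (q : ℝ) * |u j| ≤ q := by nlinarith
    exact Nat.floor_le_of_le h3
  -- injectivity
  have hinj : Set.InjOn (fun j => (κ j, decide (0 ≤ u j))) (range J : Set ℕ) := by
    intro i hi j hj hij
    simp only [Prod.mk.injEq, decide_eq_decide] at hij
    by_contra hne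
    have hi' : i < J := by simpa using hi
    have hj' : j < J := by simpa using hj
    have hd : ((i : ℤ) - j) ≠ 0 := by
      intro h
      apply hne
      omega
    have hd2 : 2 * |(i : ℤ) - j| ≤ q := by
      rcases abs_cases ((i : ℤ) - j) with ⟨h, _⟩ | ⟨h, _⟩ <;> rw [h] <;> omega
    have h2 := sep hq hc hθ hd hd2
      (round (((c + i : ℤ) : ℝ) * θ) - round (((c + j : ℤ) : ℝ) * θ))
    have h3 : ((i : ℤ) - j : ℤ) * θ -
        ((round (((c + i : ℤ) : ℝ) * θ) - round (((c + j : ℤ) : ℝ) * θ) : ℤ) : ℝ)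
        = u i - u j := by
      simp only [hu]
      push_cast
      ring
    rw [h3] at h2
    have h4 : |u i - u j| < 1 / (2 * q) := by
      have h5 : (κ i : ℝ) ≤ 2 * (q : ℝ) * |u i| := Nat.floor_le (by positivity)
      have h6 : (κ j : ℝ) ≤ 2 * (q : ℝ) * |u j| := Nat.floor_le (by positivity)
      have h7 : 2 * (q : ℝ) * |u i| < κ i + 1 := Nat.lt_floor_add_one _
      have h8 : 2 * (q : ℝ) * |u j| < κ j + 1 := Nat.lt_floor_add_one _
      have h9 : (κ i : ℝ) = κ j := by exact_mod_cast hij.1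
      have h10 : |u i - u j| = |(|u i| - |u j|)| := by
        by_cases hp : 0 ≤ u i
        · have hp2 : 0 ≤ u j := hij.2.mp hp
          rw [abs_of_nonneg hp, abs_of_nonneg hp2]
        · have hp2 : ¬ 0 ≤ u j := fun h => hp (hij.2.mpr h)
          push Not at hp hp2
          rw [abs_of_neg hp, abs_of_neg hp2]
          rw [show -u i - -u j = -(u i - u j) by ring, abs_neg]
      rw [h10, abs_lt, lt_div_iff₀ (by positivity)]
      constructor
      · have : -(1 / (2 * (q : ℝ))) * (2 * q) = -1 := by field_simp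
        have h11 : -1 < (|u i| - |u j|) * (2 * q) := by
          rw [h9] at h5
          nlinarith
        by_contra hcon
        push Not at hcon
        have : (|u i| - |u j|) * (2 * q) ≤ -(1 / (2 * (q : ℝ))) * (2 * q) :=
          mul_le_mul_of_nonneg_right hcon (by positivity)
        linarith
      · rw [h9] at h7
        nlinarith
    linarith
  calc ∑ j ∈ range J, F (c + j) ≤ ∑ j ∈ range J, H (κ j) := Finset.sum_le_sum (fun j _ => h1 j)
    _ = ∑ j ∈ range J, (fun p : ℕ × Bool => H p.1) (κ j, decide (0 ≤ u j)) := rfl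
    _ = ∑ p ∈ (range J).image (fun j => (κ j, decide (0 ≤ u j))), H p.1 := by
        rw [Finset.sum_image hinj]
    _ ≤ ∑ p ∈ (range (q + 1)) ×ˢ (Finset.univ : Finset Bool), H p.1 := by
        apply Finset.sum_le_sum_of_subset_of_nonneg
        · intro p hp
          obtain ⟨j, _, rfl⟩ := Finset.mem_image.mp hp
          simp only [Finset.mem_product, Finset.mem_range, Finset.mem_univ, and_true]
          have := hκq j
          omega
        · intro p _ _
          exact hH0 _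
    _ = 2 * ∑ k ∈ range (q + 1), H k := by
        rw [Finset.sum_product]
        simp only [Finset.sum_const, Finset.card_univ, Fintype.card_bool, nsmul_eq_mul,
          ← Finset.mul_sum]
        norm_num
    _ = 2 * (M + ∑ k ∈ Icc 1 q, (q : ℝ) / k) := by
        rw [Finset.range_eq_Ico, Finset.sum_eq_sum_Ico_succ_bot (by omega)]
        have e1 : H 0 = M := by simp [hH]
        have e2 : ∑ k ∈ Ico (0 + 1) (q + 1), H k = ∑ k ∈ Icc 1 q, (q : ℝ) / k := by
          apply Finset.sum_congr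
          · ext x
            simp only [mem_Ico, mem_Icc]
            omega
          · intro k hk
            simp only [mem_Icc] at hk
            simp only [hH]
            rw [if_neg (by omega)]
        rw [e1, e2]
    _ ≤ 2 * M + 2 * (q * (1 + Real.log q)) := by
        have := harm_le q
        linarith

/-- the standard estimate over an interval of length `Y` -/
lemma interval_le {θ : ℝ} {a : ℤ} {q : ℕ} (hq : 1 ≤ q) (hc : IsCoprime a (q : ℤ))
    (hθ : |θ - a / q| ≤ 1 / (q : ℝ) ^ 2) (F : ℤ → ℝ) (M : ℝ) (hM : 0 ≤ M)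
    (hF0 : ∀ n, 0 ≤ F n) (hF : ∀ n, F n ≤ M)
    (hF2 : ∀ n : ℤ, ∀ k : ℕ, 1 ≤ k → (k : ℝ) / (2 * q) ≤ |n * θ - round (n * θ)| → F n ≤ q / k)
    (c : ℤ) (Y : ℕ) :
    ∑ j ∈ range Y, F (c + j) ≤ (2 * Y / q + 1) * (2 * M + 2 * (q * (1 + Real.log q))) := by
  have hq' : (0 : ℝ) < q := by exact_mod_cast hq
  set J : ℕ := (q + 1) / 2 with hJ
  have hJ1 : 1 ≤ J := by omega
  have hJ2 : 2 * J ≤ q + 1 := by omega
  have hJ3 : q ≤ 2 * J := by omega
  have key : ∀ B : ℕ, ∀ c : ℤ, ∑ j ∈ range (B * J), F (c + j) ≤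
      B * (2 * M + 2 * (q * (1 + Real.log q))) := by
    intro B
    induction B with
    | zero => intro c; simp
    | succ B ih =>
      intro c
      rw [Nat.add_mul, one_mul, Finset.sum_range_add]
      have h1 := ih c
      have h2 := block_le hq hc hθ F M hM hF hF2 (c + (B * J : ℕ)) J hJ2
      have h3 : ∑ x ∈ range J, F (c + ((B * J + x : ℕ) : ℤ)) =
          ∑ j ∈ range J, F (c + (B * J : ℕ) + j) := by
        apply Finset.sum_congr rfl
        intro x _
        congr 1
        push_cast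
        ring
      rw [h3]
      push_cast at *
      linarith
  set B : ℕ := Y / J + 1 with hB
  have hYB : Y ≤ B * J := by
    have := Nat.lt_div_mul_add (a := Y) hJ1
    rw [hB]
    nlinarith
  have hlog : 0 ≤ Real.log q := Real.log_natCast_nonneg q
  calc ∑ j ∈ range Y, F (c + j) ≤ ∑ j ∈ range (B * J), F (c + j) := by
        apply Finset.sum_le_sum_of_subset_of_nonneg
        · intro x
          simp only [mem_range]
          omega
        · intro j _ _
          exact hF0 _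
    _ ≤ B * (2 * M + 2 * (q * (1 + Real.log q))) := key B c
    _ ≤ (2 * Y / q + 1) * (2 * M + 2 * (q * (1 + Real.log q))) := by
        have h1 : (B : ℝ) ≤ 2 * Y / q + 1 := by
          rw [hB]
          push_cast
          have h2 : ((Y / J : ℕ) : ℝ) ≤ (Y : ℝ) / J := Nat.cast_div_le
          have h3 : (Y : ℝ) / J ≤ 2 * Y / q := by
            rw [div_le_div_iff₀ (by exact_mod_cast hJ1) hq']
            have : (q : ℝ) ≤ 2 * J := by exact_mod_cast hJ3
            nlinarith [(Nat.cast_nonneg Y : (0:ℝ) ≤ Y)]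
          linarith
        have h2 : 0 ≤ 2 * M + 2 * (q * (1 + Real.log q)) := by positivity
        gcongr

end Pool.Agent.MobQ
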