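import Mathlib
import Pool.Agent.MobQ.Geo

set_option autoImplicit false

namespace Pool.Agent.MobQ

open Finset Pool.Agent.Helper25

/-- majorant of geometric sums -/
noncomputable def FF (θ : ℝ) (q : ℕ) (M : ℝ) (n : ℤ) : ℝ :=
  if ⌊2 * (q : ℝ) * |n * θ - round (n * θ)|⌋₊ = 0 then M
  else min M ((q : ℝ) / ⌊2 * (q : ℝ) * |n * θ - round (n * θ)|⌋₊)

lemma FF_nonneg (θ : ℝ) (q : ℕ) {M : ℝ} (hM : 0 ≤ M) (n : ℤ) : 0 ≤ FF θ q M n := by
  unfold FF
  split_ifs
  · exact hM
  · positivity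

lemma FF_le (θ : ℝ) (q : ℕ) (M : ℝ) (n : ℤ) : FF θ q M n ≤ M := by
  unfold FF
  split_ifs
  · exact le_rfl
  · exact min_le_left _ _

lemma FF_le_div (θ : ℝ) (q : ℕ) (hq : 1 ≤ q) (M : ℝ) (n : ℤ) (k : ℕ) (hk : 1 ≤ k)
    (h : (k : ℝ) / (2 * q) ≤ |n * θ - round (n * θ)|) : FF θ q M n ≤ q / k := by
  have hq' : (0 : ℝ) < q := by exact_mod_cast hq
  have h1 : k ≤ ⌊2 * (q : ℝ) * |n * θ - round (n * θ)|⌋₊ := by
    apply Nat.le_floor
    rw [div_le_iff₀ (by positivity)] at h
    linarith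
  unfold FF
  rw [if_neg (by omega)]
  refine (min_le_right _ _).trans ?_
  have hk' : (0 : ℝ) < k := by exact_mod_cast hk
  have h2 : (k : ℝ) ≤ (⌊2 * (q : ℝ) * |n * θ - round (n * θ)|⌋₊ : ℝ) := by exact_mod_cast h1
  gcongr

lemma geo_le_FF (θ : ℝ) (q : ℕ) (hq : 1 ≤ q) (M : ℝ) (n : ℤ) (K : ℕ) (hK : (K : ℝ) ≤ M) :
    ‖∑ i ∈ range K, ex ((n * θ) * i)‖ ≤ FF θ q M n := by
  have hq' : (0 : ℝ) < q := by exact_mod_cast hq
  have h0 : ‖∑ i ∈ range K, ex ((n * θ) * i)‖ ≤ M := (geo_le_card _ K).trans hK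
  unfold FF
  split_ifs with h
  · exact h0
  · apply le_min h0
    apply geo_le_div _ _ _ _ (Nat.one_le_iff_ne_zero.mpr h) hq
    rw [div_le_iff₀ (by positivity)]
    have := Nat.floor_le (a := 2 * (q : ℝ) * |n * θ - round (n * θ)|) (by positivity)
    linarith

lemma mul_lt_iff_range (N p m : ℕ) (hp : 1 ≤ p) : p * m < N ↔ m < (N + p - 1) / p := by
  rw [Nat.lt_div_iff_mul_lt hp]
  constructor
  · intro h
    rw [mul_comm] at h
    omega
  · intro h
    rw [mul_comm]
    omega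

theorem bilinear {θ : ℝ} {a : ℤ} {q : ℕ} (hq : 1 ≤ q) (hc : IsCoprime a (q : ℤ))
    (hθ : |θ - a / q| ≤ 1 / (q : ℝ) ^ 2) (S : Finset ℕ) (R N : ℕ) (hR : 1 ≤ R) (hRN : R ≤ N)
    (hS : ∀ p ∈ S, R < p ∧ p ≤ 2 * R) (b : ℕ → ℂ) (hb : ∀ m, ‖b m‖ ≤ 1) :
    ‖∑ p ∈ S, ∑ m ∈ (range N).filter (fun m => p * m < N), b m * ex (p * m * θ)‖ ^ 2 ≤
      16 * (N : ℝ) ^ 2 * (1 / q + 1 / R + (R + q) * (1 + Real.log q) / N) := by
  classical
  have hq' : (0 : ℝ) < q := by exact_mod_cast hq
  have hR' : (0 : ℝ) < R := by exact_mod_cast hR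
  have hN' : (0 : ℝ) < N := lt_of_lt_of_le hR' (by exact_mod_cast hRN)
  have hlog : 0 ≤ Real.log q := Real.log_natCast_nonneg q
  set M : ℕ := N / R + 1 with hM
  set T : ℕ → ℂ := fun m => ∑ p ∈ S.filter (fun p => p * m < N), ex (p * m * θ) with hT
  have hMle : (M : ℝ) ≤ 2 * N / R := by
    rw [hM]
    push_cast
    have h1 : ((N / R : ℕ) : ℝ) ≤ (N : ℝ) / R := Nat.cast_div_le
    have h2 : (1 : ℝ) ≤ N / R := by
      rw [le_div_iff₀ hR', one_mul]
      exact_mod_cast hRN
    have h3 : (2 : ℝ) * N / R = N / R + N / R := by ring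
    linarith
  -- swap
  have e1 : ∑ p ∈ S, ∑ m ∈ (range N).filter (fun m => p * m < N), b m * ex (p * m * θ) =
      ∑ m ∈ range N, b m * T m := by
    simp only [hT, Finset.mul_sum, Finset.sum_filter]
    rw [Finset.sum_comm]
    apply Finset.sum_congr rfl
    intro m _
    apply Finset.sum_congr rfl
    intro p _
    split_ifs <;> simp
  have hT0 : ∀ m, M ≤ m → T m = 0 := by
    intro m hm
    simp only [hT]
    apply Finset.sum_eq_zero
    intro p hp
    exfalso
    simp only [Finset.mem_filter] at hp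
    have h1 := (hS p hp.1).1
    have h2 : N < R * M := by
      rw [hM]
      exact Nat.lt_mul_div_succ N (by omega)
    have h3 : R * M ≤ p * m := Nat.mul_le_mul h1.le hm
    omega
  have e2 : ∑ m ∈ range N, b m * T m = ∑ m ∈ (range N) ∩ (range M), b m * T m := by
    symm
    apply Finset.sum_subset Finset.inter_subset_left
    intro m hm hm2
    simp only [mem_inter, mem_range] at *
    rw [hT0 m (by omega), mul_zero]
  -- Cauchy Schwarz
  have h1 : ‖∑ m ∈ (range N) ∩ (range M), b m * T m‖ ≤ ∑ m ∈ range M, ‖T m‖ := by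
    calc ‖∑ m ∈ (range N) ∩ (range M), b m * T m‖ ≤ ∑ m ∈ (range N) ∩ (range M), ‖b m * T m‖ :=
          norm_sum_le _ _
      _ ≤ ∑ m ∈ (range N) ∩ (range M), ‖T m‖ := by
          apply Finset.sum_le_sum
          intro m _
          rw [norm_mul]
          exact mul_le_of_le_one_left (norm_nonneg _) (hb m)
      _ ≤ ∑ m ∈ range M, ‖T m‖ := by
          apply Finset.sum_le_sum_of_subset_of_nonneg Finset.inter_subset_right
          intro m _ _
          exact norm_nonneg _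
  have h2 : (∑ m ∈ range M, ‖T m‖) ^ 2 ≤ M * ∑ m ∈ range M, ‖T m‖ ^ 2 := by
    have := sq_sum_le_card_mul_sum_sq (s := range M) (f := fun m => ‖T m‖)
    simpa using this
  -- expand
  have e3 : ∀ m, ((‖T m‖ ^ 2 : ℝ) : ℂ) = ∑ p ∈ S, ∑ p' ∈ S,
      if p * m < N ∧ p' * m < N then ex ((((p : ℤ) - p' : ℤ) : ℝ) * θ * m) else 0 := by
    intro m
    rw [← Complex.normSq_eq_norm_sq, ← Complex.mul_conj]
    simp only [hT]
    rw [map_sum, Finset.sum_mul_sum, Finset.sum_filter]
    apply Finset.sum_congr rfl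
    intro p _
    split_ifs with hp
    · rw [Finset.sum_filter]
      apply Finset.sum_congr rfl
      intro p' _
      by_cases hp' : p' * m < N
      · rw [if_pos hp', if_pos ⟨hp, hp'⟩, conj_ex, ← ex_add]
        congr 1
        push_cast
        ring
      · rw [if_neg hp', if_neg (fun h => hp' h.2)]
    · symm
      apply Finset.sum_eq_zero
      intro p' _
      rw [if_neg (fun h => hp h.1)]
  have h3 : ∑ m ∈ range M, ‖T m‖ ^ 2 ≤ ∑ p ∈ S, ∑ p' ∈ S, FF θ q M ((p : ℤ) - p') := by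
    have e4 : ((∑ m ∈ range M, ‖T m‖ ^ 2 : ℝ) : ℂ) = ∑ p ∈ S, ∑ p' ∈ S, ∑ m ∈ range M,
        if p * m < N ∧ p' * m < N then ex ((((p : ℤ) - p' : ℤ) : ℝ) * θ * m) else 0 := by
      push_cast
      simp only [← Complex.ofReal_pow]
      rw [Finset.sum_congr rfl (fun m _ => e3 m), Finset.sum_comm]
      apply Finset.sum_congr rfl
      intro p _
      rw [Finset.sum_comm]
      push_cast
      rfl
    have e5 : ∑ m ∈ range M, ‖T m‖ ^ 2 = ‖((∑ m ∈ range M, ‖T m‖ ^ 2 : ℝ) : ℂ)‖ := by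
      rw [Complex.norm_real, Real.norm_of_nonneg]
      exact Finset.sum_nonneg (fun _ _ => by positivity)
    rw [e5, e4]
    refine (norm_sum_le _ _).trans (Finset.sum_le_sum (fun p hp => ?_))
    refine (norm_sum_le _ _).trans (Finset.sum_le_sum (fun p' hp' => ?_))
    have hp1 : 1 ≤ p := by have := hS p hp; omega
    have hp1' : 1 ≤ p' := by have := hS p' hp'; omega
    have e6 : ∑ m ∈ range M, (if p * m < N ∧ p' * m < N then
        ex ((((p : ℤ) - p' : ℤ) : ℝ) * θ * m) else 0) =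
        ∑ m ∈ range (min M (min ((N + p - 1) / p) ((N + p' - 1) / p'))),
          ex ((((p : ℤ) - p' : ℤ) : ℝ) * θ * m) := by
      rw [← Finset.sum_filter]
      apply Finset.sum_congr
      · ext m
        simp only [mem_filter, mem_range, lt_min_iff]
        rw [mul_lt_iff_range N p m hp1, mul_lt_iff_range N p' m hp1']
      · intro _ _
        rfl
    rw [e6]
    apply geo_le_FF θ q hq
    exact_mod_cast min_le_left _ _
  have h4 : ∀ p ∈ S, ∑ p' ∈ S, FF θ q M ((p : ℤ) - p') ≤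
      (2 * R / q + 1) * (2 * M + 2 * (q * (1 + Real.log q))) := by
    intro p hp
    have h5 := interval_le hq hc hθ (FF θ q M) M (Nat.cast_nonneg _)
      (fun n => FF_nonneg θ q (Nat.cast_nonneg _) n) (FF_le θ q M)
      (fun n k hk h => FF_le_div θ q hq M n k hk h) ((p : ℤ) - 2 * R) R
    refine le_trans ?_ h5
    have hinj : Set.InjOn (fun p' : ℕ => 2 * R - p') (S : Set ℕ) := by
      intro x hx y hy hxy
      have h6 := hS x hx
      have h7 := hS y hy
      simp only at hxy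
      omega
    have e7 : ∑ p' ∈ S, FF θ q M ((p : ℤ) - p') =
        ∑ p' ∈ S, (fun j : ℕ => FF θ q M ((p : ℤ) - 2 * R + j)) (2 * R - p') := by
      apply Finset.sum_congr rfl
      intro p' hp'
      have h6 := hS p' hp'
      simp only
      congr 1
      have : ((2 * R - p' : ℕ) : ℤ) = 2 * R - p' := by
        push_cast [Nat.cast_sub h6.2]
        ring
      rw [this]
      ring
    rw [e7, ← Finset.sum_image (f := fun j : ℕ => FF θ q M ((p : ℤ) - 2 * R + j)) hinj]
    apply Finset.sum_le_sum_of_subset_of_nonneg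
    · intro j hj
      obtain ⟨p', hp', rfl⟩ := Finset.mem_image.mp hj
      have h6 := hS p' hp'
      simp only [mem_range]
      omega
    · intro j _ _
      exact FF_nonneg θ q (Nat.cast_nonneg _) _
  have hcard : (S.card : ℝ) ≤ R := by
    have : S ⊆ Ioc R (2 * R) := by
      intro p hp
      have := hS p hp
      simp only [mem_Ioc]
      omega
    have h6 := Finset.card_le_card this
    rw [Nat.card_Ioc] at h6
    have h7 : S.card ≤ R := by omega
    exact_mod_cast h7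
  have h5 : ∑ m ∈ range M, ‖T m‖ ^ 2 ≤
      R * ((2 * R / q + 1) * (2 * M + 2 * (q * (1 + Real.log q)))) := by
    calc ∑ m ∈ range M, ‖T m‖ ^ 2 ≤ ∑ p ∈ S, ∑ p' ∈ S, FF θ q M ((p : ℤ) - p') := h3
      _ ≤ ∑ p ∈ S, (2 * R / q + 1) * (2 * M + 2 * (q * (1 + Real.log q))) :=
          Finset.sum_le_sum h4
      _ = S.card * ((2 * R / q + 1) * (2 * M + 2 * (q * (1 + Real.log q)))) := by
          rw [Finset.sum_const, nsmul_eq_mul]
      _ ≤ _ := by gcongr
  rw [e1, e2]
  calc ‖∑ m ∈ (range N) ∩ (range M), b m * T m‖ ^ 2 ≤ (∑ m ∈ range M, ‖T m‖) ^ 2 := by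
        gcongr
    _ ≤ M * ∑ m ∈ range M, ‖T m‖ ^ 2 := h2
    _ ≤ (2 * N / R) * (R * ((2 * R / q + 1) * (2 * (2 * N / R) + 2 * (q * (1 + Real.log q))))) := by
        apply mul_le_mul hMle (h5.trans _) (Finset.sum_nonneg (fun _ _ => by positivity))
          (by positivity)
        gcongr
    _ = 2 * N * ((2 * R / q + 1) * (4 * N / R + 2 * (q * (1 + Real.log q)))) := by
        field_simp
        ring
    _ = (N : ℝ) ^ 2 * (16 * (1 / q) + 8 * (1 / R) +
          (8 * R + 4 * q) * (1 + Real.log q) / N) := by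
        field_simp
        ring
    _ ≤ 16 * (N : ℝ) ^ 2 * (1 / q + 1 / R + (R + q) * (1 + Real.log q) / N) := by
        have h8 : 0 ≤ (1 : ℝ) / R := by positivity
        have h9 : (8 * (R : ℝ) + 4 * q) * (1 + Real.log q) / N ≤
            16 * ((R + q) * (1 + Real.log q) / N) := by
          rw [← mul_div_assoc, ← mul_assoc]
          have h11 : 8 * (R : ℝ) + 4 * q ≤ 16 * (R + q) := by linarith
          have h12 : (8 * (R : ℝ) + 4 * q) * (1 + Real.log q) ≤
            16 * (R + q) * (1 + Real.log q) := mul_le_mul_of_nonneg_right h11 (by linarith)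
          exact div_le_div_of_nonneg_right h12 hN'.le
        have h10 : 16 * (1 / (q : ℝ)) + 8 * (1 / R) + (8 * R + 4 * q) * (1 + Real.log q) / N ≤
            16 * (1 / q + 1 / R + (R + q) * (1 + Real.log q) / N) := by linarith
        nlinarith [sq_nonneg (N : ℝ)]

end Pool.Agent.MobQ
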