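import Mathlib
import Pool.Agent.MobQ.Defs

set_option autoImplicit false

namespace Pool.Agent.MobQ

open Finset

/-- number of elements of `PP` dividing `n` -/
noncomputable def om (PP : Finset ℕ) (n : ℕ) : ℝ := ∑ p ∈ PP, if p ∣ n then (1 : ℝ) else 0

/-- number of elements of `PP` whose square divides `n` -/
noncomputable def rh (PP : Finset ℕ) (n : ℕ) : ℝ := ∑ p ∈ PP, if p * p ∣ n then (1 : ℝ) else 0

lemma card_dvd_le (N d : ℕ) :
    ∑ n ∈ Ioo 0 N, (if d ∣ n then (1 : ℝ) else 0) ≤ (N : ℝ) / d := by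
  have h1 : ∑ n ∈ Ioo 0 N, (if d ∣ n then (1 : ℝ) else 0) =
      (((Ioc 0 (N - 1)).filter (fun n => d ∣ n)).card : ℝ) := by
    rw [Finset.sum_ite, Finset.sum_const_zero, add_zero, Finset.sum_const, nsmul_eq_mul, mul_one]
    congr 2
  rw [h1, Nat.Ioc_filter_dvd_card_eq_div]
  calc (((N - 1) / d : ℕ) : ℝ) ≤ ((N / d : ℕ) : ℝ) := by
        exact_mod_cast Nat.div_le_div_right (Nat.sub_le N 1)
    _ ≤ (N : ℝ) / d := Nat.cast_div_le

lemma card_dvd_ge (N d : ℕ) (hd : 1 ≤ d) :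
    (N : ℝ) / d - 2 ≤ ∑ n ∈ Ioo 0 N, (if d ∣ n then (1 : ℝ) else 0) := by
  have h1 : ∑ n ∈ Ioo 0 N, (if d ∣ n then (1 : ℝ) else 0) =
      (((Ioc 0 (N - 1)).filter (fun n => d ∣ n)).card : ℝ) := by
    rw [Finset.sum_ite, Finset.sum_const_zero, add_zero, Finset.sum_const, nsmul_eq_mul, mul_one]
    congr 2
  rw [h1, Nat.Ioc_filter_dvd_card_eq_div]
  have hd' : (1 : ℝ) ≤ d := by exact_mod_cast hd
  have h2 : (N : ℝ) ≤ d * (((N - 1) / d : ℕ) : ℝ) + 2 * d := by
    have h3 : N ≤ d * ((N - 1) / d) + 2 * d := by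
      have := Nat.lt_mul_div_succ (N - 1) (show 0 < d by omega)
      rw [Nat.mul_add] at this
      omega
    exact_mod_cast h3
  rw [sub_le_iff_le_add, div_le_iff₀ (by linarith)]
  nlinarith

/-- a second moment bound: upper bound for sum of squares -/
lemma second_moment (PP : Finset ℕ) (f : ℕ → ℕ) (N : ℕ) (s : ℝ)
    (hs : s = ∑ p ∈ PP, 1 / (f p : ℝ))
    (hcop : ∀ p ∈ PP, ∀ p' ∈ PP, p ≠ p' → Nat.Coprime (f p) (f p')) :
    ∑ n ∈ Ioo 0 N, (∑ p ∈ PP, if f p ∣ n then (1 : ℝ) else 0) ^ 2 ≤ N * (s ^ 2 + s) := by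
  classical
  have h1 : ∀ n, (∑ p ∈ PP, if f p ∣ n then (1 : ℝ) else 0) ^ 2 =
      ∑ p ∈ PP, ∑ p' ∈ PP, if (f p ∣ n ∧ f p' ∣ n) then (1 : ℝ) else 0 := by
    intro n
    rw [sq, Finset.sum_mul_sum]
    apply Finset.sum_congr rfl
    intro p _
    apply Finset.sum_congr rfl
    intro p' _
    by_cases h : f p ∣ n <;> by_cases h' : f p' ∣ n <;> simp [h, h']
  rw [Finset.sum_congr rfl (fun n _ => h1 n), Finset.sum_comm]
  have h2 : ∀ p ∈ PP, ∑ n ∈ Ioo 0 N, ∑ p' ∈ PP, (if (f p ∣ n ∧ f p' ∣ n) then (1 : ℝ) else 0) ≤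
      N * (1 / (f p : ℝ)) * s + N * (1 / (f p : ℝ)) := by
    intro p hp
    rw [Finset.sum_comm, ← Finset.add_sum_erase _ _ hp]
    have h3 : ∑ n ∈ Ioo 0 N, (if (f p ∣ n ∧ f p ∣ n) then (1 : ℝ) else 0) ≤
        N * (1 / (f p : ℝ)) := by
      have := card_dvd_le N (f p)
      simp only [and_self]
      calc _ ≤ _ := this
        _ = _ := by ring
    have h4 : ∑ p' ∈ PP.erase p, ∑ n ∈ Ioo 0 N,
        (if (f p ∣ n ∧ f p' ∣ n) then (1 : ℝ) else 0) ≤ N * (1 / (f p : ℝ)) * s := by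
      rw [hs, Finset.mul_sum]
      calc ∑ p' ∈ PP.erase p, ∑ n ∈ Ioo 0 N, (if (f p ∣ n ∧ f p' ∣ n) then (1 : ℝ) else 0)
          ≤ ∑ p' ∈ PP.erase p, N * (1 / (f p : ℝ)) * (1 / (f p' : ℝ)) := by
            apply Finset.sum_le_sum
            intro p' hp'
            have hne : p ≠ p' := (Finset.ne_of_mem_erase hp').symm
            have hp'' : p' ∈ PP := Finset.mem_of_mem_erase hp'
            have h5 := card_dvd_le N (f p * f p')
            have h6 : ∑ n ∈ Ioo 0 N, (if (f p ∣ n ∧ f p' ∣ n) then (1 : ℝ) else 0) =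
                ∑ n ∈ Ioo 0 N, (if (f p * f p') ∣ n then (1 : ℝ) else 0) := by
              apply Finset.sum_congr rfl
              intro n _
              have h7 : (f p ∣ n ∧ f p' ∣ n) ↔ f p * f p' ∣ n := by
                constructor
                · rintro ⟨h8, h9⟩
                  exact (hcop p hp p' hp'' hne).mul_dvd_of_dvd_of_dvd h8 h9
                · intro h8
                  exact ⟨(Dvd.intro _ rfl).trans h8, (Dvd.intro_left _ rfl).trans h8⟩
              simp only [h7]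
            rw [h6]
            refine h5.trans (le_of_eq ?_)
            push_cast
            rw [div_eq_mul_one_div, mul_assoc, one_div_mul_one_div]
        _ ≤ ∑ p' ∈ PP, N * (1 / (f p : ℝ)) * (1 / (f p' : ℝ)) := by
            apply Finset.sum_le_sum_of_subset_of_nonneg (Finset.erase_subset _ _)
            intro p' _ _
            positivity
    linarith
  have h3 : ∑ p ∈ PP, (N * (1 / (f p : ℝ)) * s + N * (1 / (f p : ℝ))) = N * (s ^ 2 + s) := by
    rw [Finset.sum_add_distrib, ← Finset.sum_mul, ← Finset.mul_sum, ← hs]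
    ring
  calc ∑ p ∈ PP, ∑ n ∈ Ioo 0 N, ∑ p' ∈ PP, (if (f p ∣ n ∧ f p' ∣ n) then (1 : ℝ) else 0)
      ≤ ∑ p ∈ PP, (N * (1 / (f p : ℝ)) * s + N * (1 / (f p : ℝ))) := Finset.sum_le_sum h2
    _ = N * (s ^ 2 + s) := h3

/-- Turan-Kubilius -/
theorem turan_kubilius (PP : Finset ℕ) (hPP : ∀ p ∈ PP, p.Prime) (N : ℕ) (hcard : PP.card ≤ N)
    (LL : ℝ) (hLL : LL = ∑ p ∈ PP, 1 / (p : ℝ)) :
    ∑ n ∈ Ioo 0 N, (om PP n - LL) ^ 2 ≤ 5 * N * LL := by
  have hLL0 : 0 ≤ LL := by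
    rw [hLL]
    exact Finset.sum_nonneg (fun _ _ => by positivity)
  have h1 := second_moment PP id N LL (by simpa using hLL)
    (fun p hp p' hp' hne => (Nat.coprime_primes (hPP p hp) (hPP p' hp')).mpr hne)
  simp only [id] at h1
  have h2 : N * LL - 2 * PP.card ≤ ∑ n ∈ Ioo 0 N, om PP n := by
    unfold om
    rw [Finset.sum_comm]
    calc N * LL - 2 * PP.card = ∑ p ∈ PP, ((N : ℝ) / p - 2) := by
          rw [Finset.sum_sub_distrib, Finset.sum_const, nsmul_eq_mul, hLL, Finset.mul_sum]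
          congr 1
          · apply Finset.sum_congr rfl
            intro p _
            ring
          · ring
      _ ≤ _ := Finset.sum_le_sum (fun p hp => card_dvd_ge N p (hPP p hp).one_lt.le)
  have h3 : ∑ n ∈ Ioo 0 N, (om PP n - LL) ^ 2 =
      ∑ n ∈ Ioo 0 N, om PP n ^ 2 - 2 * LL * ∑ n ∈ Ioo 0 N, om PP n +
        ((Ioo 0 N).card : ℝ) * LL ^ 2 := by
    rw [Finset.mul_sum, ← Finset.sum_sub_distrib]
    rw [← nsmul_eq_mul, ← Finset.sum_const, ← Finset.sum_add_distrib]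
    apply Finset.sum_congr rfl
    intro n _
    ring
  have h4 : ((Ioo 0 N).card : ℝ) ≤ N := by
    rw [Nat.card_Ioo]
    exact_mod_cast (by omega : N - 0 - 1 ≤ N)
  have h5 : (PP.card : ℝ) ≤ N := by exact_mod_cast hcard
  have h6 : ∑ n ∈ Ioo 0 N, om PP n ^ 2 ≤ N * (LL ^ 2 + LL) := h1
  rw [h3]
  have h7 : 2 * LL * (N * LL - 2 * PP.card) ≤ 2 * LL * ∑ n ∈ Ioo 0 N, om PP n := by gcongr
  have h8 : ((Ioo 0 N).card : ℝ) * LL ^ 2 ≤ N * LL ^ 2 := by gcongr
  nlinarith [mul_nonneg hLL0 (sub_nonneg.mpr h5)]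

/-- the bilinear model of the Moebius function -/
noncomputable def v2 (PP : Finset ℕ) (LL : ℝ) (n : ℕ) : ℝ :=
  -(1 / LL) * ∑ p ∈ PP, if p ∣ n then mu (n / p) else 0

lemma abs_mu_le (n : ℕ) : |mu n| ≤ 1 := by
  unfold mu
  have := ArithmeticFunction.abs_moebius_le_one (n := n)
  exact_mod_cast this

lemma mu_zero : mu 0 = 0 := by
  simp [mu]

lemma mu_mul_prime {p m : ℕ} (hp : p.Prime) : mu (p * m) = if p ∣ m then 0 else - mu m := by
  unfold mu
  split_ifs with h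
  · obtain ⟨k, rfl⟩ := h
    have : ¬ Squarefree (p * (p * k)) := by
      intro hsq
      have := hsq p ⟨k, by ring⟩
      exact hp.one_lt.ne' (Nat.isUnit_iff.mp this)
    rw [ArithmeticFunction.moebius_eq_zero_of_not_squarefree this]
    simp
  · have hc : Nat.Coprime p m := (Nat.Prime.coprime_iff_not_dvd hp).mpr h
    rw [ArithmeticFunction.isMultiplicative_moebius.map_mul_of_coprime hc,
      ArithmeticFunction.moebius_apply_prime hp]
    push_cast
    ring

lemma v1_bound (PP : Finset ℕ) (hPP : ∀ p ∈ PP, p.Prime) (LL : ℝ) (hLL : 0 < LL) (n : ℕ) :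
    (mu n - v2 PP LL n) ^ 2 ≤ 2 / LL ^ 2 * (om PP n - LL) ^ 2 + 2 / LL ^ 2 * rh PP n ^ 2 := by
  have h1 : ∀ p ∈ PP, |(if p ∣ n then mu (n / p) else 0) + mu n * (if p ∣ n then (1 : ℝ) else 0)| ≤
      if p * p ∣ n then (1 : ℝ) else 0 := by
    intro p hp
    have hpp := hPP p hp
    by_cases hd : p ∣ n
    · obtain ⟨m, rfl⟩ := hd
      have h2 : p * m / p = m := Nat.mul_div_cancel_left m hpp.pos
      rw [if_pos (Dvd.intro _ rfl), if_pos (Dvd.intro _ rfl), h2, mu_mul_prime hpp, mul_one]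
      by_cases hm : p ∣ m
      · rw [if_pos hm, add_zero, if_pos (Nat.mul_dvd_mul_left p hm)]
        exact abs_mu_le m
      · rw [if_neg hm, add_neg_cancel, abs_zero]
        split_ifs <;> norm_num
    · rw [if_neg hd, if_neg hd, mul_zero, add_zero, abs_zero]
      split_ifs <;> norm_num
  have h2 : |(∑ p ∈ PP, if p ∣ n then mu (n / p) else 0) + mu n * om PP n| ≤ rh PP n := by
    unfold om rh
    rw [Finset.mul_sum, ← Finset.sum_add_distrib]
    exact (Finset.abs_sum_le_sum_abs _ _).trans (Finset.sum_le_sum h1)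
  set U1 : ℝ := ∑ p ∈ PP, if p ∣ n then mu (n / p) else 0 with hU1
  have h3 : mu n - v2 PP LL n = (1 / LL) * (-(mu n * (om PP n - LL)) + (U1 + mu n * om PP n)) := by
    unfold v2
    rw [← hU1]
    field_simp
    ring
  rw [h3, mul_pow]
  have h4 : (-(mu n * (om PP n - LL)) + (U1 + mu n * om PP n)) ^ 2 ≤
      2 * (om PP n - LL) ^ 2 + 2 * rh PP n ^ 2 := by
    have h5 : (U1 + mu n * om PP n) ^ 2 ≤ rh PP n ^ 2 := by
      rw [← sq_abs]
      gcongr
    have h6 : (mu n * (om PP n - LL)) ^ 2 ≤ (om PP n - LL) ^ 2 := by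
      rw [mul_pow]
      have : mu n ^ 2 ≤ 1 := by
        rw [← sq_abs]
        have := abs_mu_le n
        have := abs_nonneg (mu n)
        nlinarith
      nlinarith [sq_nonneg (om PP n - LL)]
    nlinarith [sq_nonneg (-(mu n * (om PP n - LL)) - (U1 + mu n * om PP n))]
  calc (1 / LL) ^ 2 * (-(mu n * (om PP n - LL)) + (U1 + mu n * om PP n)) ^ 2
      ≤ (1 / LL) ^ 2 * (2 * (om PP n - LL) ^ 2 + 2 * rh PP n ^ 2) := by gcongr
    _ = _ := by ring

lemma v2_zero (PP : Finset ℕ) (LL : ℝ) : v2 PP LL 0 = 0 := by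
  unfold v2
  have : ∀ p ∈ PP, (if p ∣ 0 then mu (0 / p) else 0) = 0 := by
    intro p _
    simp [mu_zero]
  rw [Finset.sum_congr rfl this]
  simp

/-- the mean square of the difference -/
theorem v1_sq (PP : Finset ℕ) (hPP : ∀ p ∈ PP, p.Prime) (P N : ℕ) (hP1 : 1 ≤ P)
    (hP : ∀ p ∈ PP, P ≤ p) (hcard : PP.card ≤ N)
    (LL : ℝ) (hLL : LL = ∑ p ∈ PP, 1 / (p : ℝ)) (hLL1 : 1 ≤ LL) :
    ∑ n ∈ range N, (mu n - v2 PP LL n) ^ 2 ≤ (10 / LL + 4 / P) * N := by
  have hP' : (0 : ℝ) < P := by exact_mod_cast hP1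
  have hN : (0 : ℝ) ≤ N := Nat.cast_nonneg N
  have h1 : ∑ n ∈ range N, (mu n - v2 PP LL n) ^ 2 = ∑ n ∈ Ioo 0 N, (mu n - v2 PP LL n) ^ 2 := by
    symm
    apply Finset.sum_subset
    · intro n hn
      simp only [mem_Ioo, mem_range] at *
      exact hn.2
    · intro n hn hn2
      have : n = 0 := by
        simp only [mem_Ioo, mem_range] at *
        omega
      rw [this, mu_zero, v2_zero]
      norm_num
  rw [h1]
  set s : ℝ := ∑ p ∈ PP, 1 / ((p * p : ℕ) : ℝ) with hs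
  have hs1 : s ≤ LL / P := by
    rw [hs, hLL, Finset.sum_div]
    apply Finset.sum_le_sum
    intro p hp
    have h2 : (P : ℝ) ≤ p := by exact_mod_cast hP p hp
    push_cast
    rw [div_div]
    apply one_div_le_one_div_of_le
    · have : (0 : ℝ) < p := by linarith
      positivity
    · nlinarith
  have hs0 : 0 ≤ s := Finset.sum_nonneg (fun _ _ => by positivity)
  have h2 := second_moment PP (fun p => p * p) N s hs
    (fun p hp p' hp' hne => by
      have := (Nat.coprime_primes (hPP p hp) (hPP p' hp')).mpr hne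
      exact Nat.Coprime.mul_left (Nat.Coprime.mul_right this this)
        (Nat.Coprime.mul_right this this))
  have h3 := turan_kubilius PP hPP N hcard LL hLL
  have hLL0 : 0 < LL := by linarith
  calc ∑ n ∈ Ioo 0 N, (mu n - v2 PP LL n) ^ 2
      ≤ ∑ n ∈ Ioo 0 N, (2 / LL ^ 2 * (om PP n - LL) ^ 2 + 2 / LL ^ 2 * rh PP n ^ 2) :=
        Finset.sum_le_sum (fun n _ => v1_bound PP hPP LL hLL0 n)
    _ = 2 / LL ^ 2 * ∑ n ∈ Ioo 0 N, (om PP n - LL) ^ 2 +
        2 / LL ^ 2 * ∑ n ∈ Ioo 0 N, rh PP n ^ 2 := by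
        rw [Finset.sum_add_distrib, ← Finset.mul_sum, ← Finset.mul_sum]
    _ ≤ 2 / LL ^ 2 * (5 * N * LL) + 2 / LL ^ 2 * (N * (s ^ 2 + s)) := by
        gcongr
        exact h2
    _ ≤ 2 / LL ^ 2 * (5 * N * LL) + 2 / LL ^ 2 * (N * ((LL / P) ^ 2 + LL / P)) := by gcongr
    _ = (10 / LL) * N + (2 / P ^ 2 + 2 / (LL * P)) * N := by
        field_simp
        ring
    _ ≤ (10 / LL + 4 / P) * N := by
        have h4 : 2 / (P : ℝ) ^ 2 ≤ 2 / P := by
          apply div_le_div_of_nonneg_left (by norm_num) hP'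
          have : (1 : ℝ) ≤ P := by exact_mod_cast hP1
          nlinarith
        have h5 : 2 / (LL * P) ≤ 2 / P := by
          apply div_le_div_of_nonneg_left (by norm_num) hP'
          nlinarith
        have h6 : 2 / (P : ℝ) ^ 2 + 2 / (LL * P) ≤ 4 / P := by
          have : (4 : ℝ) / P = 2 / P + 2 / P := by ring
          linarith
        nlinarith

end Pool.Agent.MobQ
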