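import Mathlib
import Pool.Agent.MobQ.Defs
import Pool.Agent.MobQ.TK
import Pool.Agent.Helper25.Expo

set_option autoImplicit false

namespace Pool.Agent.MobQ

open Finset Pool.Agent.Helper25

lemma ex_eq (x : ℝ) (n : ℕ) : ex (n * x) = Complex.exp (2 * Real.pi * Complex.I * (x : ℂ) * (n : ℂ)) := by
  unfold ex
  congr 1
  push_cast
  ring

lemma norm_ex_sub_one_le (x : ℝ) : ‖ex x - 1‖ ≤ 2 * Real.pi * |x| := by
  rw [norm_ex_sub_one]
  have h : |Real.sin (Real.pi * x)| ≤ |Real.pi * x| := Real.abs_sin_le_abs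
  rw [abs_mul, abs_of_pos Real.pi_pos] at h
  linarith

/-- partial summation -/
lemma abel_ex (c : ℕ → ℂ) (γ B : ℝ) (X : ℕ) (hB : ∀ x, x ≤ X → ‖∑ m ∈ range x, c m‖ ≤ B) :
    ‖∑ m ∈ range X, c m * ex (m * γ)‖ ≤ (1 + 2 * Real.pi * |γ| * X) * B := by
  have hB0 : 0 ≤ B := by
    have := hB 0 (Nat.zero_le _)
    simpa using this
  have key : ∀ Y, Y ≤ X → ∑ m ∈ range Y, c m * ex (m * γ) =
      (∑ m ∈ range Y, c m) * ex (Y * γ) -
        ∑ m ∈ range Y, (∑ i ∈ range (m + 1), c i) * (ex ((m + 1 : ℕ) * γ) - ex (m * γ)) := by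
    intro Y
    induction Y with
    | zero => intro _; simp
    | succ Y ih =>
      intro hY
      rw [Finset.sum_range_succ, ih (by omega), Finset.sum_range_succ (fun m => c m),
        Finset.sum_range_succ (fun m => (∑ i ∈ range (m + 1), c i) * _),
        Finset.sum_range_succ (fun i => c i)]
      ring
  rw [key X le_rfl]
  have h1 : ∀ m ∈ range X, ‖(∑ i ∈ range (m + 1), c i) * (ex ((m + 1 : ℕ) * γ) - ex (m * γ))‖ ≤
      B * (2 * Real.pi * |γ|) := by
    intro m hm
    simp only [mem_range] at hm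
    rw [norm_mul]
    have h2 : ex ((m + 1 : ℕ) * γ) - ex (m * γ) = ex (m * γ) * (ex γ - 1) := by
      have : ((m + 1 : ℕ) : ℝ) * γ = m * γ + γ := by push_cast; ring
      rw [this, ex_add]
      ring
    rw [h2, norm_mul, norm_ex, one_mul]
    exact mul_le_mul (hB _ (by omega)) (norm_ex_sub_one_le γ) (norm_nonneg _) hB0
  calc ‖(∑ m ∈ range X, c m) * ex (X * γ) -
        ∑ m ∈ range X, (∑ i ∈ range (m + 1), c i) * (ex ((m + 1 : ℕ) * γ) - ex (m * γ))‖
      ≤ ‖(∑ m ∈ range X, c m) * ex (X * γ)‖ +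
        ‖∑ m ∈ range X, (∑ i ∈ range (m + 1), c i) * (ex ((m + 1 : ℕ) * γ) - ex (m * γ))‖ :=
        norm_sub_le _ _
    _ ≤ B + ∑ m ∈ range X, B * (2 * Real.pi * |γ|) := by
        apply add_le_add
        · rw [norm_mul, norm_ex, mul_one]
          exact hB X le_rfl
        · exact (norm_sum_le _ _).trans (Finset.sum_le_sum h1)
    _ = (1 + 2 * Real.pi * |γ| * X) * B := by
        rw [Finset.sum_const, card_range, nsmul_eq_mul]
        ring

lemma ex_periodic (a : ℤ) (q : ℕ) (hq : 1 ≤ q) (m : ℕ) :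
    ex (m * ((a : ℝ) / q)) = ex ((m % q : ℕ) * ((a : ℝ) / q)) := by
  have hq' : (q : ℝ) ≠ 0 := by
    have : (0 : ℝ) < q := by exact_mod_cast hq
    exact this.ne'
  obtain ⟨k, hk⟩ : ∃ k : ℕ, k = m / q := ⟨_, rfl⟩
  have h1 : (m : ℝ) = (m % q : ℕ) + q * (k : ℕ) := by
    rw [hk]
    exact_mod_cast (Nat.mod_add_div m q).symm
  have h2 : (m : ℝ) * ((a : ℝ) / q) = (m % q : ℕ) * ((a : ℝ) / q) + ((a * (k : ℤ) : ℤ) : ℝ) := by
    nth_rewrite 1 [h1]
    push_cast
    field_simp
  rw [h2, ex_add, ex_int, mul_one]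

/-- additive twist by a rational frequency, in terms of residue classes -/
lemma twist_le (a : ℤ) (q : ℕ) (hq : 1 ≤ q) (x : ℕ) (E : ℝ)
    (hE : ∀ b, b < q → |∑ m ∈ (range x).filter (fun m => m % q = b), mu m| ≤ E) :
    ‖∑ m ∈ range x, (mu m : ℂ) * ex (m * ((a : ℝ) / q))‖ ≤ q * E := by
  have h1 : ∑ m ∈ range x, (mu m : ℂ) * ex (m * ((a : ℝ) / q)) =
      ∑ b ∈ range q, ∑ m ∈ (range x).filter (fun m => m % q = b),
        (mu m : ℂ) * ex (m * ((a : ℝ) / q)) := by
    symm
    apply Finset.sum_fiberwise_of_maps_to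
    intro m _
    exact mem_range.mpr (Nat.mod_lt _ hq)
  rw [h1]
  calc ‖∑ b ∈ range q, ∑ m ∈ (range x).filter (fun m => m % q = b),
        (mu m : ℂ) * ex (m * ((a : ℝ) / q))‖ ≤ ∑ b ∈ range q, E := by
        refine (norm_sum_le _ _).trans (Finset.sum_le_sum ?_)
        intro b hb
        have h2 : ∑ m ∈ (range x).filter (fun m => m % q = b), (mu m : ℂ) * ex (m * ((a : ℝ) / q)) =
            ((∑ m ∈ (range x).filter (fun m => m % q = b), mu m : ℝ) : ℂ) *
              ex (b * ((a : ℝ) / q)) := by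
          rw [Complex.ofReal_sum, Finset.sum_mul]
          apply Finset.sum_congr rfl
          intro m hm
          simp only [mem_filter] at hm
          rw [ex_periodic a q hq m, hm.2]
        rw [h2, norm_mul, norm_ex, mul_one, Complex.norm_real, Real.norm_eq_abs]
        exact hE b (mem_range.mp hb)
    _ = q * E := by rw [Finset.sum_const, card_range, nsmul_eq_mul]

/-- exponential sum over initial segments, major arcs -/
lemma major_one (hSW : SWLite) : ∃ C : ℝ, 0 ≤ C ∧ ∀ (N : ℕ), (16 : ℝ) ≤ N → 2 ≤ Real.log N →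
    ∀ (q : ℕ), 1 ≤ q → (q : ℝ) ≤ (Real.log N / 2) ^ (5 / 4 : ℝ) →
    ∀ (a : ℤ) (γ : ℝ) (X : ℕ), X ≤ N →
    ‖∑ m ∈ range X, (mu m : ℂ) * ex (m * ((a : ℝ) / q + γ))‖ ≤
      (1 + 2 * Real.pi * |γ| * X) * (q * (C * X * (2 / Real.log N) ^ 4 + 2 * √N)) := by
  obtain ⟨C, hC⟩ := hSW 4
  refine ⟨|C|, abs_nonneg _, ?_⟩
  intro N hN hL q hq hqL a γ X hX
  have hL0 : 0 < Real.log N := by linarith
  have hN0 : (0 : ℝ) < N := by linarith
  have hsqrt : 4 ≤ √(N : ℝ) := by
    rw [show (4 : ℝ) = √16 by rw [show (16 : ℝ) = 4 ^ 2 by norm_num]; exact (Real.sqrt_sq (by norm_num)).symm]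
    exact Real.sqrt_le_sqrt hN
  have h1 : ∀ m : ℕ, (mu m : ℂ) * ex (m * ((a : ℝ) / q + γ)) =
      ((mu m : ℂ) * ex (m * ((a : ℝ) / q))) * ex (m * γ) := by
    intro m
    rw [mul_add, ex_add]
    ring
  rw [Finset.sum_congr rfl (fun m _ => h1 m)]
  apply abel_ex
  intro x hx
  apply twist_le a q hq x
  intro b hb
  have hR : 0 ≤ |C| * X * (2 / Real.log N) ^ 4 := by positivity
  by_cases hxs : (x : ℝ) ≤ 2 * √N
  · have h2 : |∑ m ∈ (range x).filter (fun m => m % q = b), mu m| ≤ x := by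
      refine (Finset.abs_sum_le_sum_abs _ _).trans ?_
      calc ∑ m ∈ (range x).filter (fun m => m % q = b), |mu m|
          ≤ ∑ m ∈ (range x).filter (fun m => m % q = b), (1 : ℝ) :=
            Finset.sum_le_sum (fun m _ => abs_mu_le m)
        _ = (((range x).filter (fun m => m % q = b)).card : ℝ) := by simp
        _ ≤ ((range x).card : ℝ) := by exact_mod_cast Finset.card_filter_le _ _
        _ = x := by simp
    linarith
  · push Not at hxs
    have hx1 : 1 ≤ x := by
      by_contra h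
      have : x = 0 := by omega
      rw [this] at hxs
      simp at hxs
      linarith
    have hx2 : √(N : ℝ) ≤ ((x - 1 : ℕ) : ℝ) := by
      rw [Nat.cast_sub hx1]
      push_cast
      linarith
    have hx3 : 3 ≤ x - 1 := by
      have : (3 : ℝ) ≤ ((x - 1 : ℕ) : ℝ) := by linarith
      exact_mod_cast this
    have hlog : Real.log N / 2 ≤ Real.log ((x - 1 : ℕ) : ℝ) := by
      have h3 : Real.log (√(N : ℝ)) = Real.log N / 2 := Real.log_sqrt hN0.le
      rw [← h3]
      exact Real.log_le_log (by linarith) hx2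
    have h4 := hC (x - 1) q b hx3 hq (hqL.trans (by
      apply Real.rpow_le_rpow (by linarith) hlog (by norm_num)))
    have h5 : ∑ n ∈ (Icc 1 (x - 1)).filter (fun n => n % q = b % q), mu n =
        ∑ m ∈ (range x).filter (fun m => m % q = b), mu m := by
      rw [Nat.mod_eq_of_lt hb]
      apply Finset.sum_subset_zero_on_sdiff
      · intro n hn
        simp only [mem_filter, mem_Icc, mem_range] at *
        exact ⟨by omega, hn.2⟩
      · intro n hn
        simp only [mem_sdiff, mem_filter, mem_Icc, mem_range, not_and] at hn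
        have : n = 0 := by
          by_contra h0
          exact hn.2 ⟨by omega, by omega⟩ hn.1.2
        rw [this, mu_zero]
      · intro n _
        rfl
    rw [h5] at h4
    refine h4.trans ?_
    have h6 : C * ((x - 1 : ℕ) : ℝ) / Real.log ((x - 1 : ℕ) : ℝ) ^ 4 ≤
        |C| * X * (2 / Real.log N) ^ 4 := by
      have h7 : ((x - 1 : ℕ) : ℝ) ≤ X := by exact_mod_cast (by omega : x - 1 ≤ X)
      have h8 : 0 < Real.log ((x - 1 : ℕ) : ℝ) := by linarith
      calc C * ((x - 1 : ℕ) : ℝ) / Real.log ((x - 1 : ℕ) : ℝ) ^ 4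
          ≤ |C| * X / Real.log ((x - 1 : ℕ) : ℝ) ^ 4 := by
            apply div_le_div_of_nonneg_right _ (by positivity)
            exact mul_le_mul (le_abs_self C) h7 (Nat.cast_nonneg _) (abs_nonneg _)
        _ ≤ |C| * X / (Real.log N / 2) ^ 4 := by
            apply div_le_div_of_nonneg_left (by positivity) (by positivity)
            gcongr
        _ = |C| * X * (2 / Real.log N) ^ 4 := by
            field_simp
    have h9 : 0 ≤ 2 * √(N : ℝ) := by positivity
    linarith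

/-- the exponential sum of `v2` as a bilinear sum -/
lemma v2_sum (PP : Finset ℕ) (hPP : ∀ p ∈ PP, p.Prime) (LL : ℝ) (N : ℕ) (θ : ℝ) :
    ∑ n ∈ range N, (v2 PP LL n : ℂ) * ex (n * θ) =
      (-(1 / LL) : ℝ) * ∑ p ∈ PP, ∑ m ∈ (range N).filter (fun m => p * m < N),
        (mu m : ℂ) * ex (p * m * θ) := by
  have h1 : ∀ n ∈ range N, (v2 PP LL n : ℂ) * ex (n * θ) =
      (-(1 / LL) : ℝ) * ∑ p ∈ PP, (if p ∣ n then (mu (n / p) : ℂ) * ex (n * θ) else 0) := by
    intro n _
    unfold v2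
    rw [Complex.ofReal_mul, mul_assoc, Complex.ofReal_sum, Finset.sum_mul]
    congr 1
    apply Finset.sum_congr rfl
    intro p _
    split_ifs
    · rfl
    · simp
  rw [Finset.sum_congr rfl h1, ← Finset.mul_sum, Finset.sum_comm]
  congr 1
  apply Finset.sum_congr rfl
  intro p hp
  have hp0 : 0 < p := (hPP p hp).pos
  rw [← Finset.sum_filter]
  symm
  apply Finset.sum_bij (fun m _ => p * m)
  · intro m hm
    simp only [mem_filter, mem_range] at *
    exact ⟨hm.2, Dvd.intro _ rfl⟩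
  · intro m _ m' _ h
    exact Nat.eq_of_mul_eq_mul_left hp0 h
  · intro n hn
    simp only [mem_filter, mem_range] at hn
    obtain ⟨m, rfl⟩ := hn.2
    refine ⟨m, ?_, rfl⟩
    simp only [mem_filter, mem_range]
    exact ⟨lt_of_le_of_lt (Nat.le_mul_of_pos_left m hp0) hn.1, hn.1⟩
  · intro m _
    rw [Nat.mul_div_cancel_left m hp0]
    push_cast
    rfl

/-- major arcs for the bilinear model -/
lemma major (hSW : SWLite) : ∃ C : ℝ, 0 ≤ C ∧ ∀ (N : ℕ), (16 : ℝ) ≤ N → 2 ≤ Real.log N →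
    ∀ (PP : Finset ℕ), (∀ p ∈ PP, p.Prime) → (∀ p ∈ PP, p ≤ N) →
    ∀ LL : ℝ, LL = ∑ p ∈ PP, 1 / (p : ℝ) → 1 ≤ LL →
    ∀ (q : ℕ), 1 ≤ q → (q : ℝ) ≤ (Real.log N / 2) ^ (5 / 4 : ℝ) →
    ∀ (a : ℤ) (θ : ℝ), |θ - a / q| ≤ Real.log N ^ (5 / 2 : ℝ) / (q * N) →
    ‖∑ n ∈ range N, (v2 PP LL n : ℂ) * ex (n * θ)‖ ≤
      14 * Real.log N ^ (5 / 2 : ℝ) * (C * N * (2 / Real.log N) ^ 4 + 2 * √N * PP.card) := by
  obtain ⟨C, hC0, hC⟩ := major_one hSW
  refine ⟨2 * C, by positivity, ?_⟩
  intro N hN hL PP hPP hPPN LL hLL hLL1 q hq hqL a θ hθ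
  have hL0 : 0 < Real.log N := by linarith
  have hN0 : (0 : ℝ) < N := by linarith
  have hq' : (0 : ℝ) < q := by exact_mod_cast hq
  have hq1 : (1 : ℝ) ≤ q := by exact_mod_cast hq
  rw [v2_sum PP hPP LL N θ, norm_mul, Complex.norm_real, Real.norm_eq_abs, abs_neg,
    abs_of_nonneg (by positivity)]
  set β : ℝ := θ - a / q with hβ
  have hpow : (1 : ℝ) ≤ Real.log N ^ (5 / 2 : ℝ) := Real.one_le_rpow (by linarith) (by norm_num)
  have hqle : (q : ℝ) ≤ Real.log N ^ (5 / 2 : ℝ) := by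
    refine hqL.trans ?_
    calc (Real.log N / 2) ^ (5 / 4 : ℝ) ≤ Real.log N ^ (5 / 4 : ℝ) := by
          apply Real.rpow_le_rpow (by linarith) (by linarith) (by norm_num)
      _ ≤ Real.log N ^ (5 / 2 : ℝ) := by
          apply Real.rpow_le_rpow_of_exponent_le (by linarith) (by norm_num)
  have h1 : ∀ p ∈ PP, ‖∑ m ∈ (range N).filter (fun m => p * m < N), (mu m : ℂ) * ex (p * m * θ)‖ ≤
      14 * Real.log N ^ (5 / 2 : ℝ) *
        (C * (2 * N * (1 / p)) * (2 / Real.log N) ^ 4 + 2 * √N) := by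
    intro p hp
    have hp1 : 1 ≤ p := (hPP p hp).one_lt.le
    have hp' : (0 : ℝ) < p := by exact_mod_cast hp1
    have hpN : p ≤ N := hPPN p hp
    set X : ℕ := (N + p - 1) / p with hX
    have h2 : ∑ m ∈ (range N).filter (fun m => p * m < N), (mu m : ℂ) * ex (p * m * θ) =
        ∑ m ∈ range X, (mu m : ℂ) * ex (m * (((p * a : ℤ) : ℝ) / q + p * β)) := by
      apply Finset.sum_congr
      · ext m
        simp only [mem_filter, mem_range]
        constructor
        · rintro ⟨_, h⟩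
          rw [hX, Nat.lt_div_iff_mul_lt hp1]
          have : p * m = m * p := mul_comm _ _
          omega
        · intro h
          rw [hX, Nat.lt_div_iff_mul_lt hp1] at h
          have h3 : p * m = m * p := mul_comm _ _
          have h4 : m ≤ p * m := Nat.le_mul_of_pos_left m (by omega)
          omega
      · intro m _
        congr 2
        rw [hβ]
        push_cast
        field_simp
        ring
    rw [h2]
    have hXN : X ≤ N := by
      rw [hX]
      apply Nat.div_le_of_le_mul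
      obtain ⟨p', rfl⟩ : ∃ p', p = p' + 1 := ⟨p - 1, by omega⟩
      obtain ⟨N', rfl⟩ : ∃ N', N = N' + 1 := ⟨N - 1, by omega⟩
      have : N' + 1 + (p' + 1) - 1 = N' + 1 + p' := by omega
      rw [this]
      nlinarith
    have hXle : (X : ℝ) * p ≤ 2 * N := by
      have h3 : X * p ≤ N + p - 1 := Nat.div_mul_le_self _ _
      have h4 : X * p ≤ 2 * N := by omega
      exact_mod_cast h4
    have h3 := hC N hN hL q hq hqL (p * a) (p * β) X hXN
    refine h3.trans ?_
    have h4 : |(p : ℝ) * β| * X ≤ 2 * Real.log N ^ (5 / 2 : ℝ) / q := by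
      rw [abs_mul, abs_of_pos hp']
      calc p * |β| * X = (X * p) * |β| := by ring
        _ ≤ (2 * N) * (Real.log N ^ (5 / 2 : ℝ) / (q * N)) := by gcongr
        _ = 2 * Real.log N ^ (5 / 2 : ℝ) / q := by field_simp
    have h5 : (1 + 2 * Real.pi * |(p : ℝ) * β| * X) * q ≤ 14 * Real.log N ^ (5 / 2 : ℝ) := by
      have h6 : 2 * Real.pi * |(p : ℝ) * β| * X ≤ 13 * (Real.log N ^ (5 / 2 : ℝ) / q) := by
        have hpi := Real.pi_lt_d2
        calc 2 * Real.pi * |(p : ℝ) * β| * X = 2 * Real.pi * (|(p : ℝ) * β| * X) := by ring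
          _ ≤ 2 * 3.15 * (2 * Real.log N ^ (5 / 2 : ℝ) / q) := by gcongr
          _ ≤ 13 * (Real.log N ^ (5 / 2 : ℝ) / q) := by
              have : 0 ≤ Real.log N ^ (5 / 2 : ℝ) / q := by positivity
              have e : 2 * 3.15 * (2 * Real.log N ^ (5 / 2 : ℝ) / q) =
                12.6 * (Real.log N ^ (5 / 2 : ℝ) / q) := by ring
              rw [e]
              nlinarith
      calc (1 + 2 * Real.pi * |(p : ℝ) * β| * X) * q
          ≤ (1 + 13 * (Real.log N ^ (5 / 2 : ℝ) / q)) * q := by gcongr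
        _ = q + 13 * Real.log N ^ (5 / 2 : ℝ) := by field_simp
        _ ≤ 14 * Real.log N ^ (5 / 2 : ℝ) := by linarith
    have h7 : (X : ℝ) ≤ 2 * N * (1 / p) := by
      rw [mul_one_div, le_div_iff₀ hp']
      exact hXle
    calc (1 + 2 * Real.pi * |(p : ℝ) * β| * X) * (q * (C * X * (2 / Real.log N) ^ 4 + 2 * √N))
        = ((1 + 2 * Real.pi * |(p : ℝ) * β| * X) * q) * (C * X * (2 / Real.log N) ^ 4 + 2 * √N) := by
          ring
      _ ≤ (14 * Real.log N ^ (5 / 2 : ℝ)) *
          (C * (2 * N * (1 / p)) * (2 / Real.log N) ^ 4 + 2 * √N) := by gcongr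
  calc 1 / LL * ‖∑ p ∈ PP, ∑ m ∈ (range N).filter (fun m => p * m < N),
        (mu m : ℂ) * ex (p * m * θ)‖
      ≤ 1 / LL * ∑ p ∈ PP, 14 * Real.log N ^ (5 / 2 : ℝ) *
        (C * (2 * N * (1 / p)) * (2 / Real.log N) ^ 4 + 2 * √N) := by
        gcongr
        exact (norm_sum_le _ _).trans (Finset.sum_le_sum h1)
    _ = 1 / LL * (14 * Real.log N ^ (5 / 2 : ℝ) *
        (2 * C * N * (2 / Real.log N) ^ 4 * LL + 2 * √N * PP.card)) := by
        congr 1
        rw [← Finset.mul_sum, Finset.sum_add_distrib, Finset.sum_const, nsmul_eq_mul]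
        congr 2
        · rw [hLL, Finset.mul_sum]
          apply Finset.sum_congr rfl
          intro p _
          ring
        · ring
    _ = 14 * Real.log N ^ (5 / 2 : ℝ) * (2 * C * N * (2 / Real.log N) ^ 4 +
        (1 / LL) * (2 * √N * PP.card)) := by
        field_simp
    _ ≤ 14 * Real.log N ^ (5 / 2 : ℝ) *
        (2 * C * N * (2 / Real.log N) ^ 4 + 2 * √N * PP.card) := by
        have h8 : (1 / LL) * (2 * √N * PP.card) ≤ 2 * √N * PP.card := by
          apply mul_le_of_le_one_left (by positivity)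
          rw [div_le_one (by linarith)]
          exact hLL1
        gcongr

end Pool.Agent.MobQ
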