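import Mathlib

set_option autoImplicit false

namespace Pool.Agent.MobQ

open Finset Filter Topology

lemma cheb_ineq : ∀ᶠ y : ℝ in atTop,
    y ≤ 2 * Real.log 2 * y - Real.log (4 * y + 1) - 4 * √y * Real.log (4 * y) := by
  have h1 : (fun y : ℝ => Real.log (4 * y + 1)) =o[atTop] (fun y : ℝ => y) := by
    have h := Real.isLittleO_log_id_atTop.comp_tendsto
      (tendsto_atTop_add_const_right atTop (1 : ℝ)
        (Tendsto.const_mul_atTop (show (0 : ℝ) < 4 by norm_num) tendsto_id))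
    refine h.trans_isBigO ?_
    apply Asymptotics.IsBigO.of_bound 5
    filter_upwards [eventually_ge_atTop (1 : ℝ)] with y hy
    simp only [Function.comp, id]
    rw [Real.norm_of_nonneg (by linarith), Real.norm_of_nonneg (by linarith)]
    linarith
  have h2 : (fun y : ℝ => 4 * √y * Real.log (4 * y)) =o[atTop] (fun y : ℝ => y) := by
    have h := (isLittleO_log_rpow_atTop (show (0 : ℝ) < 1 / 2 by norm_num)).comp_tendsto
      (Tendsto.const_mul_atTop (show (0 : ℝ) < 4 by norm_num) tendsto_id)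
    have h' := (Asymptotics.isBigO_refl (fun y : ℝ => 4 * √y) atTop).mul_isLittleO h
    refine h'.trans_isBigO ?_
    apply Asymptotics.IsBigO.of_bound 8
    filter_upwards [eventually_ge_atTop (1 : ℝ)] with y hy
    simp only [Function.comp, id]
    have hy0 : (0 : ℝ) ≤ y := by linarith
    rw [Real.norm_of_nonneg (by positivity), Real.norm_of_nonneg hy0, ← Real.sqrt_eq_rpow,
      Real.sqrt_mul (by norm_num)]
    have h3 : √(4 : ℝ) = 2 := by
      rw [show (4 : ℝ) = 2 ^ 2 by norm_num]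
      exact Real.sqrt_sq (by norm_num)
    rw [h3]
    have h4 := Real.mul_self_sqrt hy0
    nlinarith
  have h3 := h1.bound (show (0 : ℝ) < 1 / 10 by norm_num)
  have h4 := h2.bound (show (0 : ℝ) < 1 / 10 by norm_num)
  filter_upwards [h3, h4, eventually_ge_atTop (1 : ℝ)] with y h5 h6 hy
  rw [Real.norm_eq_abs, Real.norm_of_nonneg (show (0 : ℝ) ≤ y by linarith)] at h5 h6
  have h7 := le_abs_self (Real.log (4 * y + 1))
  have h8 := le_abs_self (4 * √y * Real.log (4 * y))
  have h9 := Real.log_two_gt_d9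
  nlinarith

lemma cheb : ∃ y₀ : ℕ, 1 ≤ y₀ ∧ ∀ y : ℕ, y₀ ≤ y →
    (y : ℝ) ≤ ∑ p ∈ (Ioc y (4 * y)).filter Nat.Prime, Real.log p := by
  obtain ⟨B, hB⟩ := (eventually_atTop.mp cheb_ineq)
  refine ⟨⌈B⌉₊ + 1, by omega, fun y hy => ?_⟩
  have hyB : B ≤ (y : ℝ) := by
    have h1 := Nat.le_ceil B
    have h2 : ((⌈B⌉₊ + 1 : ℕ) : ℝ) ≤ y := by exact_mod_cast hy
    push_cast at h2
    linarith
  have h1 := hB y hyB
  have h2 := Chebyshev.theta_ge (4 * y)
  have h3 := Chebyshev.theta_le_log4_mul_x (x := (y : ℝ)) (Nat.cast_nonneg y)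
  have h4 : Chebyshev.theta ((4 * y : ℕ) : ℝ) - Chebyshev.theta (y : ℝ) =
      ∑ p ∈ (Ioc y (4 * y)).filter Nat.Prime, Real.log p := by
    unfold Chebyshev.theta
    rw [Nat.floor_natCast, Nat.floor_natCast]
    have h5 : (Ioc 0 (4 * y)).filter Nat.Prime =
        (Ioc 0 y).filter Nat.Prime ∪ (Ioc y (4 * y)).filter Nat.Prime := by
      ext x
      simp only [mem_filter, mem_union, mem_Ioc]
      constructor
      · rintro ⟨⟨h1, h2⟩, h3⟩
        by_cases hx : x ≤ y
        · exact Or.inl ⟨⟨h1, hx⟩, h3⟩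
        · exact Or.inr ⟨⟨by omega, h2⟩, h3⟩
      · rintro (⟨⟨h1, h2⟩, h3⟩ | ⟨⟨h1, h2⟩, h3⟩)
        · exact ⟨⟨h1, by omega⟩, h3⟩
        · exact ⟨⟨by omega, h2⟩, h3⟩
    have h6 : Disjoint ((Ioc 0 y).filter Nat.Prime) ((Ioc y (4 * y)).filter Nat.Prime) := by
      rw [Finset.disjoint_left]
      intro x hx hx2
      simp only [mem_filter, mem_Ioc] at hx hx2
      omega
    rw [h5, Finset.sum_union h6]
    ring
  rw [← h4]
  have h5 : Real.log 4 = 2 * Real.log 2 := by
    rw [show (4 : ℝ) = 2 ^ 2 by norm_num, Real.log_pow]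
    norm_num
  push_cast at h2
  rw [h5] at h3
  have h6 : √(4 * (y : ℝ)) = 2 * √y := by
    rw [Real.sqrt_mul (by norm_num)]
    congr 1
    rw [show (4 : ℝ) = 2 ^ 2 by norm_num]
    exact Real.sqrt_sq (by norm_num)
  rw [h6] at h2
  push_cast
  linarith

lemma cheb_inv : ∃ y₀ : ℕ, 1 ≤ y₀ ∧ ∀ y : ℕ, y₀ ≤ y →
    1 / (4 * Real.log (4 * y)) ≤ ∑ p ∈ (Ioc y (4 * y)).filter Nat.Prime, 1 / (p : ℝ) := by
  obtain ⟨y₀, h0, h⟩ := cheb
  refine ⟨y₀, h0, fun y hy => ?_⟩
  have hy1 : 1 ≤ y := by omega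
  have hy' : (0 : ℝ) < y := by exact_mod_cast hy1
  have hl : 0 < Real.log (4 * y) := by
    apply Real.log_pos
    have : (1 : ℝ) ≤ y := by exact_mod_cast hy1
    linarith
  have h1 : ∑ p ∈ (Ioc y (4 * y)).filter Nat.Prime, Real.log p / (4 * y * Real.log (4 * y)) ≤
      ∑ p ∈ (Ioc y (4 * y)).filter Nat.Prime, 1 / (p : ℝ) := by
    apply Finset.sum_le_sum
    intro p hp
    simp only [mem_filter, mem_Ioc] at hp
    have hp0 : (0 : ℝ) < p := by exact_mod_cast (by omega : 0 < p)
    have hp1 : (p : ℝ) ≤ 4 * y := by exact_mod_cast hp.1.2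
    have h2 : Real.log p ≤ Real.log (4 * y) := Real.log_le_log hp0 hp1
    rw [div_le_div_iff₀ (by positivity) hp0]
    have h3 : 0 ≤ Real.log p := Real.log_natCast_nonneg p
    nlinarith
  refine le_trans ?_ h1
  rw [← Finset.sum_div, div_le_div_iff₀ (by positivity) (by positivity)]
  have h2 := h y hy
  nlinarith

lemma log_sum (x : ℝ) (hx : 0 < x) (I : ℕ) :
    Real.log ((x + I) / x) ≤ ∑ i ∈ range I, 1 / (x + i) := by
  induction I with
  | zero => simp [hx.ne']
  | succ I ih =>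
    rw [Finset.sum_range_succ]
    have hxI : 0 < x + I := by positivity
    have h1 : (x + (I + 1 : ℕ)) / x = ((x + I) / x) * ((x + (I + 1 : ℕ)) / (x + I)) := by
      field_simp
    rw [h1, Real.log_mul (by positivity) (by positivity)]
    have h2 := Real.log_le_sub_one_of_pos (show 0 < (x + (I + 1 : ℕ)) / (x + I) by positivity)
    have h3 : (x + ((I + 1 : ℕ) : ℝ)) / (x + I) - 1 = 1 / (x + I) := by
      push_cast
      field_simp
      ring
    linarith

/-- sums of reciprocals of primes over `(P, 4^I P]` -/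
theorem prime_sum (C : ℝ) (hC : 0 ≤ C) : ∃ K : ℕ, ∃ P₀ : ℕ, 3 ≤ P₀ ∧ ∀ P : ℕ, P₀ ≤ P →
    ∃ I : ℕ, (I : ℝ) ≤ K * Real.log P ∧
      C ≤ ∑ p ∈ (Ioc P (P * 4 ^ I)).filter Nat.Prime, 1 / (p : ℝ) := by
  obtain ⟨y₀, h0, h⟩ := cheb_inv
  set E : ℝ := Real.exp (8 * C) with hE
  have hE1 : 1 ≤ E := by
    rw [hE]
    exact Real.one_le_exp (by linarith)
  refine ⟨⌈2 * E⌉₊ + 1, max y₀ 3, le_max_right _ _, fun P hP => ?_⟩
  have hP3 : 3 ≤ P := (le_max_right _ _).trans hP
  have hPy : y₀ ≤ P := (le_max_left _ _).trans hP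
  have hP' : (0 : ℝ) < P := by exact_mod_cast (by omega : 0 < P)
  have hL1 : 1 ≤ Real.log P := by
    rw [Real.le_log_iff_exp_le hP']
    have h1 := Real.exp_one_lt_d9
    have h2 : (3 : ℝ) ≤ P := by exact_mod_cast hP3
    linarith
  set x : ℝ := 1 + Real.log P with hx
  have hx0 : 0 < x := by linarith
  set I : ℕ := ⌈x * E⌉₊ with hI
  refine ⟨I, ?_, ?_⟩
  · have h1 : (I : ℝ) < x * E + 1 := Nat.ceil_lt_add_one (by positivity)
    have h2 : (2 * E : ℝ) ≤ ⌈2 * E⌉₊ := Nat.le_ceil _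
    push_cast
    have h3 : x * E ≤ 2 * Real.log P * E := by
      apply mul_le_mul_of_nonneg_right _ (by linarith)
      linarith
    nlinarith
  · have hsum : ∀ J : ℕ, ∑ i ∈ range J, 1 / (8 * (x + i)) ≤
        ∑ p ∈ (Ioc P (P * 4 ^ J)).filter Nat.Prime, 1 / (p : ℝ) := by
      intro J
      induction J with
      | zero => simp
      | succ J ih =>
        rw [Finset.sum_range_succ]
        have h5 : (Ioc P (P * 4 ^ (J + 1))).filter Nat.Prime =
            (Ioc P (P * 4 ^ J)).filter Nat.Prime ∪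
              (Ioc (P * 4 ^ J) (4 * (P * 4 ^ J))).filter Nat.Prime := by
          have e1 : P * 4 ^ (J + 1) = 4 * (P * 4 ^ J) := by rw [pow_succ]; ring
          have e2 : P ≤ P * 4 ^ J := Nat.le_mul_of_pos_right _ (by positivity)
          rw [e1]
          ext y
          simp only [mem_filter, mem_union, mem_Ioc]
          constructor
          · rintro ⟨⟨h1, h2⟩, h3⟩
            by_cases hy : y ≤ P * 4 ^ J
            · exact Or.inl ⟨⟨h1, hy⟩, h3⟩
            · exact Or.inr ⟨⟨by omega, h2⟩, h3⟩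
          · rintro (⟨⟨h1, h2⟩, h3⟩ | ⟨⟨h1, h2⟩, h3⟩)
            · exact ⟨⟨h1, by omega⟩, h3⟩
            · exact ⟨⟨by omega, h2⟩, h3⟩
        have h6 : Disjoint ((Ioc P (P * 4 ^ J)).filter Nat.Prime)
            ((Ioc (P * 4 ^ J) (4 * (P * 4 ^ J))).filter Nat.Prime) := by
          rw [Finset.disjoint_left]
          intro y hy hy2
          simp only [mem_filter, mem_Ioc] at hy hy2
          omega
        rw [h5, Finset.sum_union h6]
        have h7 := h (P * 4 ^ J) (hPy.trans (Nat.le_mul_of_pos_right _ (by positivity)))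
        have h8 : Real.log (4 * ((P * 4 ^ J : ℕ) : ℝ)) = Real.log P + (J + 1) * Real.log 4 := by
          have : (4 : ℝ) * ((P * 4 ^ J : ℕ) : ℝ) = P * 4 ^ (J + 1) := by
            push_cast
            ring
          rw [this, Real.log_mul hP'.ne' (by positivity), Real.log_pow]
          push_cast
          ring
        have h9 : Real.log 4 ≤ 2 := by
          have : Real.log 4 = 2 * Real.log 2 := by
            rw [show (4 : ℝ) = 2 ^ 2 by norm_num, Real.log_pow]
            norm_num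
          have := Real.log_two_lt_d9
          linarith
        have h10 : 4 * (Real.log P + (J + 1) * Real.log 4) ≤ 8 * (x + J) := by
          have hJ : (0 : ℝ) ≤ J := Nat.cast_nonneg J
          nlinarith
        have h11 : 1 / (8 * (x + J)) ≤ 1 / (4 * Real.log (4 * ((P * 4 ^ J : ℕ) : ℝ))) := by
          rw [h8]
          apply one_div_le_one_div_of_le _ h10
          have hJ : (0 : ℝ) ≤ J := Nat.cast_nonneg J
          have : 0 ≤ Real.log 4 := Real.log_nonneg (by norm_num)
          positivity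
        linarith
    refine le_trans ?_ (hsum I)
    have h1 := log_sum x hx0 I
    have h2 : ∑ i ∈ range I, 1 / (8 * (x + i)) = (1 / 8) * ∑ i ∈ range I, 1 / (x + i) := by
      rw [Finset.mul_sum]
      apply Finset.sum_congr rfl
      intro i _
      field_simp
    rw [h2]
    have h3 : 8 * C ≤ Real.log ((x + I) / x) := by
      rw [Real.le_log_iff_exp_le (by positivity), le_div_iff₀ hx0, ← hE]
      have := Nat.le_ceil (x * E)
      nlinarith
    linarith

end Pool.Agent.MobQ
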