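import Mathlib
import Pool.Agent.MobQ.Defs
import Pool.Agent.MobQ.TK
import Pool.Agent.MobQ.PrimeSum
import Pool.Agent.MobQ.Bil
import Pool.Agent.MobQ.Major

set_option autoImplicit false

namespace Pool.Agent.MobQ

open Finset Filter Topology Pool.Agent.Helper25

lemma minor (N P I : ℕ) (hP : 1 ≤ P) (hPN : P * 4 ^ I ≤ N) (LL : ℝ) (hLL1 : 1 ≤ LL)
    {θ : ℝ} {a : ℤ} {q : ℕ} (hq : 1 ≤ q) (hc : IsCoprime a (q : ℤ))
    (hθ : |θ - a / q| ≤ 1 / (q : ℝ) ^ 2) (X0 : ℝ)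
    (hX : 1 / (q : ℝ) + 1 / P + ((P * 4 ^ I : ℕ) + q) * (1 + Real.log q) / N ≤ X0) :
    ‖∑ n ∈ range N, (v2 ((Ioc P (P * 4 ^ I)).filter Nat.Prime) LL n : ℂ) * ex (n * θ)‖ ≤
      2 * I * (4 * N * √X0) := by
  have hq' : (0 : ℝ) < q := by exact_mod_cast hq
  have hP' : (0 : ℝ) < P := by exact_mod_cast hP
  have hN1 : 1 ≤ N := le_trans (Nat.mul_pos hP (by positivity)) hPN
  have hN' : (0 : ℝ) < N := by exact_mod_cast hN1
  have hlog : 0 ≤ Real.log q := Real.log_natCast_nonneg q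
  rw [v2_sum _ (fun p hp => (mem_filter.mp hp).2) LL N θ, norm_mul, Complex.norm_real,
    Real.norm_eq_abs, abs_neg, abs_of_nonneg (by positivity)]
  have key : ∀ J : ℕ, P * 2 ^ J ≤ P * 4 ^ I →
      ‖∑ p ∈ (Ioc P (P * 2 ^ J)).filter Nat.Prime,
        ∑ m ∈ (range N).filter (fun m => p * m < N), (mu m : ℂ) * ex (p * m * θ)‖ ≤
      J * (4 * N * √X0) := by
    intro J
    induction J with
    | zero => intro _; simp
    | succ J ih =>
      intro hJ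
      have hle : P * 2 ^ J ≤ P * 2 ^ (J + 1) := by
        apply Nat.mul_le_mul_left
        exact Nat.pow_le_pow_right (by norm_num) (by omega)
      have ih' := ih (hle.trans hJ)
      have h5 : (Ioc P (P * 2 ^ (J + 1))).filter Nat.Prime =
          (Ioc P (P * 2 ^ J)).filter Nat.Prime ∪
            (Ioc (P * 2 ^ J) (2 * (P * 2 ^ J))).filter Nat.Prime := by
        have e1 : P * 2 ^ (J + 1) = 2 * (P * 2 ^ J) := by rw [pow_succ]; ring
        have e2 : P ≤ P * 2 ^ J := Nat.le_mul_of_pos_right _ (by positivity)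
        rw [e1]
        ext y
        simp only [mem_filter, mem_union, mem_Ioc]
        constructor
        · rintro ⟨⟨h1, h2⟩, h3⟩
          by_cases hy : y ≤ P * 2 ^ J
          · exact Or.inl ⟨⟨h1, hy⟩, h3⟩
          · exact Or.inr ⟨⟨by omega, h2⟩, h3⟩
        · rintro (⟨⟨h1, h2⟩, h3⟩ | ⟨⟨h1, h2⟩, h3⟩)
          · exact ⟨⟨h1, by omega⟩, h3⟩
          · exact ⟨⟨by omega, h2⟩, h3⟩
      have h6 : Disjoint ((Ioc P (P * 2 ^ J)).filter Nat.Prime)
          ((Ioc (P * 2 ^ J) (2 * (P * 2 ^ J))).filter Nat.Prime) := by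
        rw [Finset.disjoint_left]
        intro y hy hy2
        simp only [mem_filter, mem_Ioc] at hy hy2
        omega
      rw [h5, Finset.sum_union h6]
      have hR1 : 1 ≤ P * 2 ^ J := Nat.mul_pos hP (by positivity)
      have h7 := bilinear hq hc hθ ((Ioc (P * 2 ^ J) (2 * (P * 2 ^ J))).filter Nat.Prime)
        (P * 2 ^ J) N hR1 ((hle.trans hJ).trans hPN)
        (fun p hp => by simp only [mem_filter, mem_Ioc] at hp; exact hp.1)
        (fun m => (mu m : ℂ))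
        (fun m => by rw [Complex.norm_real, Real.norm_eq_abs]; exact abs_mu_le m)
      have hR' : (P : ℝ) ≤ ((P * 2 ^ J : ℕ) : ℝ) := by
        exact_mod_cast Nat.le_mul_of_pos_right P (by positivity)
      have h8 : 1 / (q : ℝ) + 1 / ((P * 2 ^ J : ℕ) : ℝ) +
          (((P * 2 ^ J : ℕ) : ℝ) + q) * (1 + Real.log q) / N ≤ X0 := by
        refine le_trans ?_ hX
        have h9 : ((P * 2 ^ J : ℕ) : ℝ) ≤ ((P * 4 ^ I : ℕ) : ℝ) := by
          exact_mod_cast hle.trans hJ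
        gcongr
      have h9 : ‖∑ p ∈ (Ioc (P * 2 ^ J) (2 * (P * 2 ^ J))).filter Nat.Prime,
          ∑ m ∈ (range N).filter (fun m => p * m < N), (mu m : ℂ) * ex (p * m * θ)‖ ≤
          4 * N * √X0 := by
        apply le_of_sq_le_sq _ (by positivity)
        refine h7.trans ?_
        have hX0 : 0 ≤ X0 := by
          refine le_trans ?_ hX
          positivity
        rw [mul_pow, mul_pow, Real.sq_sqrt hX0]
        have : 16 * (N : ℝ) ^ 2 * (1 / (q : ℝ) + 1 / ((P * 2 ^ J : ℕ) : ℝ) +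
          (((P * 2 ^ J : ℕ) : ℝ) + q) * (1 + Real.log q) / N) ≤ 16 * (N : ℝ) ^ 2 * X0 := by
          gcongr
        refine this.trans (le_of_eq ?_)
        norm_num
      calc _ ≤ _ := norm_add_le _ _
        _ ≤ J * (4 * N * √X0) + 4 * N * √X0 := add_le_add ih' h9
        _ = ((J + 1 : ℕ) : ℝ) * (4 * N * √X0) := by push_cast; ring
  have h4 : (4 : ℕ) ^ I = 2 ^ (2 * I) := by
    rw [pow_mul]
    norm_num
  have h1 := key (2 * I) (by rw [h4])
  rw [← h4] at h1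
  calc 1 / LL * ‖∑ p ∈ (Ioc P (P * 4 ^ I)).filter Nat.Prime,
        ∑ m ∈ (range N).filter (fun m => p * m < N), (mu m : ℂ) * ex (p * m * θ)‖
      ≤ 1 * ‖∑ p ∈ (Ioc P (P * 4 ^ I)).filter Nat.Prime,
        ∑ m ∈ (range N).filter (fun m => p * m < N), (mu m : ℂ) * ex (p * m * θ)‖ := by
        gcongr
        rw [div_le_one (by linarith)]
        exact hLL1
    _ ≤ 2 * I * (4 * N * √X0) := by
        rw [one_mul]
        refine h1.trans (le_of_eq ?_)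
        push_cast
        ring

/-- the asymptotic inequalities needed -/
lemma growth (K : ℕ) (C : ℝ) : ∀ᶠ x : ℝ in atTop,
    24 * (K : ℝ) * Real.log (2 * x ^ 2) * 3 ≤ x ^ (1 / 40 : ℝ) ∧
    (2 * x ^ 2) ^ (2 * K + 1) ≤ Real.exp (x / 4) ∧
    (1 + x) * Real.exp (-(3 / 4) * x) ≤ x ^ (-(5 / 4) : ℝ) ∧
    14 * x ^ (5 / 2 : ℝ) * (C * (2 / x) ^ 4) ≤ 1 / 2 * x ^ (-(3 / 5) : ℝ) ∧
    14 * x ^ (5 / 2 : ℝ) * (2 * Real.exp (-(1 / 4) * x)) ≤ 1 / 2 * x ^ (-(3 / 5) : ℝ) ∧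
    (1 + x) * x ^ (-(5 / 2) : ℝ) ≤ 2 * x ^ (-(5 / 4) : ℝ) := by
  have g1 : ∀ᶠ x : ℝ in atTop, 24 * (K : ℝ) * Real.log (2 * x ^ 2) * 3 ≤ x ^ (1 / 40 : ℝ) := by
    have h1 : (fun x : ℝ => 24 * (K : ℝ) * Real.log (2 * x ^ 2) * 3) =o[atTop]
        (fun x : ℝ => x ^ (1 / 40 : ℝ)) := by
      have h2 : (fun x : ℝ => Real.log x) =o[atTop] (fun x : ℝ => x ^ (1 / 40 : ℝ)) :=
        isLittleO_log_rpow_atTop (by norm_num)
      have h3 : (fun x : ℝ => 24 * (K : ℝ) * Real.log (2 * x ^ 2) * 3) =O[atTop]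
          (fun x : ℝ => Real.log x) := by
        apply Asymptotics.IsBigO.of_bound (72 * K * 4)
        filter_upwards [eventually_ge_atTop (2 : ℝ)] with x hx
        have hx0 : (0 : ℝ) < x := by linarith
        have h4 : 0 ≤ Real.log x := Real.log_nonneg (by linarith)
        have h5 : Real.log (2 * x ^ 2) = Real.log 2 + 2 * Real.log x := by
          rw [Real.log_mul (by norm_num) (by positivity), Real.log_pow]
          norm_num
        have h6 : Real.log 2 ≤ Real.log x := Real.log_le_log (by norm_num) hx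
        have h7 : 0 ≤ Real.log 2 := Real.log_nonneg (by norm_num)
        rw [h5, Real.norm_of_nonneg (by positivity), Real.norm_of_nonneg h4]
        have hK : (0 : ℝ) ≤ K := Nat.cast_nonneg K
        nlinarith [mul_nonneg hK h4, mul_le_mul_of_nonneg_left h6 hK]
      exact h3.trans_isLittleO h2
    filter_upwards [h1.bound (show (0 : ℝ) < 1 by norm_num), eventually_ge_atTop (0 : ℝ)]
      with x hx hx0
    rw [one_mul, Real.norm_of_nonneg (Real.rpow_nonneg hx0 _)] at hx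
    exact (le_abs_self _).trans hx
  have g2 : ∀ᶠ x : ℝ in atTop, (2 * x ^ 2) ^ (2 * K + 1) ≤ Real.exp (x / 4) := by
    have h1 := (isLittleO_pow_exp_pos_mul_atTop (k := 2 * (2 * K + 1))
      (show (0 : ℝ) < 1 / 4 by norm_num))
    have h2 := h1.bound (show (0 : ℝ) < 1 / 2 ^ (2 * K + 1) by positivity)
    filter_upwards [h2, eventually_ge_atTop (0 : ℝ)] with x hx hx0
    rw [Real.norm_of_nonneg (by positivity), Real.norm_of_nonneg (Real.exp_pos _).le] at hx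
    rw [mul_pow, ← pow_mul]
    have h3 : (0 : ℝ) < 2 ^ (2 * K + 1) := by positivity
    calc (2 : ℝ) ^ (2 * K + 1) * x ^ (2 * (2 * K + 1))
        ≤ 2 ^ (2 * K + 1) * (1 / 2 ^ (2 * K + 1) * Real.exp (1 / 4 * x)) := by gcongr
      _ = Real.exp (x / 4) := by
          rw [← mul_assoc, mul_one_div_cancel h3.ne', one_mul]
          congr 1
          ring
  have g3 : ∀ᶠ x : ℝ in atTop, (1 + x) * Real.exp (-(3 / 4) * x) ≤ x ^ (-(5 / 4) : ℝ) := by
    have h1 := tendsto_rpow_mul_exp_neg_mul_atTop_nhds_zero (9 / 4) (3 / 4) (by norm_num)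
    have h2 := h1.eventually (gt_mem_nhds (show (0 : ℝ) < 1 / 2 by norm_num))
    filter_upwards [h2, eventually_ge_atTop (1 : ℝ)] with x hx hx1
    have hx0 : (0 : ℝ) < x := by linarith
    have h3 : (1 + x) ≤ 2 * x := by linarith
    have h4 : x ^ (9 / 4 : ℝ) = x * x ^ (5 / 4 : ℝ) := by
      rw [← Real.rpow_one_add' hx0.le (by norm_num)]
      norm_num
    have h5 : x ^ (-(5 / 4) : ℝ) = (x ^ (5 / 4 : ℝ))⁻¹ := Real.rpow_neg hx0.le _
    rw [h4] at hx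
    rw [h5]
    have h6 : 0 < x ^ (5 / 4 : ℝ) := Real.rpow_pos_of_pos hx0 _
    rw [← one_div, le_div_iff₀ h6]
    have h7 := Real.exp_pos (-(3 / 4) * x)
    calc (1 + x) * Real.exp (-(3 / 4) * x) * x ^ (5 / 4 : ℝ)
        ≤ (2 * x) * Real.exp (-(3 / 4) * x) * x ^ (5 / 4 : ℝ) := by gcongr
      _ = 2 * (x * x ^ (5 / 4 : ℝ) * Real.exp (-(3 / 4) * x)) := by ring
      _ ≤ 1 := by linarith
  have g4 : ∀ᶠ x : ℝ in atTop,
      14 * x ^ (5 / 2 : ℝ) * (C * (2 / x) ^ 4) ≤ 1 / 2 * x ^ (-(3 / 5) : ℝ) := by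
    have h1 : Tendsto (fun x : ℝ => 14 * C * 16 * x ^ (-(9 / 10) : ℝ)) atTop (𝓝 (14 * C * 16 * 0)) :=
      (tendsto_rpow_neg_atTop (show (0 : ℝ) < 9 / 10 by norm_num)).const_mul _
    rw [mul_zero] at h1
    filter_upwards [h1.eventually (gt_mem_nhds (show (0 : ℝ) < 1 / 2 by norm_num)),
      eventually_ge_atTop (1 : ℝ)] with x hx hx1
    have hx0 : (0 : ℝ) < x := by linarith
    have h2 : x ^ (5 / 2 : ℝ) * (1 / x) ^ 4 = x ^ (-(9 / 10) : ℝ) * x ^ (-(3 / 5) : ℝ) := by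
      rw [← Real.rpow_add hx0]
      have : (1 / x) ^ 4 = x ^ (-4 : ℝ) := by
        rw [one_div, inv_pow, Real.rpow_neg hx0.le]
        norm_num
      rw [this, ← Real.rpow_add hx0]
      norm_num
    have h3 : 14 * x ^ (5 / 2 : ℝ) * (C * (2 / x) ^ 4) =
        14 * C * 16 * (x ^ (5 / 2 : ℝ) * (1 / x) ^ 4) := by
      rw [show 2 / x = 2 * (1 / x) by ring, mul_pow]
      ring
    rw [h3, h2, ← mul_assoc]
    have h4 : 0 ≤ x ^ (-(3 / 5) : ℝ) := Real.rpow_nonneg hx0.le _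
    exact mul_le_mul_of_nonneg_right hx.le h4
  have g5 : ∀ᶠ x : ℝ in atTop,
      14 * x ^ (5 / 2 : ℝ) * (2 * Real.exp (-(1 / 4) * x)) ≤ 1 / 2 * x ^ (-(3 / 5) : ℝ) := by
    have h1 := tendsto_rpow_mul_exp_neg_mul_atTop_nhds_zero (31 / 10) (1 / 4) (by norm_num)
    have h2 := h1.eventually (gt_mem_nhds (show (0 : ℝ) < 1 / 56 by norm_num))
    filter_upwards [h2, eventually_ge_atTop (1 : ℝ)] with x hx hx1
    have hx0 : (0 : ℝ) < x := by linarith
    have h4 : x ^ (31 / 10 : ℝ) = x ^ (5 / 2 : ℝ) * x ^ (3 / 5 : ℝ) := by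
      rw [← Real.rpow_add hx0]
      norm_num
    have h5 : x ^ (-(3 / 5) : ℝ) = (x ^ (3 / 5 : ℝ))⁻¹ := Real.rpow_neg hx0.le _
    have h6 : 0 < x ^ (3 / 5 : ℝ) := Real.rpow_pos_of_pos hx0 _
    rw [h4] at hx
    rw [h5, ← one_div, mul_one_div, le_div_iff₀ h6]
    calc 14 * x ^ (5 / 2 : ℝ) * (2 * Real.exp (-(1 / 4) * x)) * x ^ (3 / 5 : ℝ)
        = 28 * (x ^ (5 / 2 : ℝ) * x ^ (3 / 5 : ℝ) * Real.exp (-(1 / 4) * x)) := by ring
      _ ≤ 1 / 2 := by linarith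
  have g6 : ∀ᶠ x : ℝ in atTop, (1 + x) * x ^ (-(5 / 2) : ℝ) ≤ 2 * x ^ (-(5 / 4) : ℝ) := by
    filter_upwards [eventually_ge_atTop (1 : ℝ)] with x hx1
    have hx0 : (0 : ℝ) < x := by linarith
    have h1 : x ^ (-(5 / 2) : ℝ) * x = x ^ (-(3 / 2) : ℝ) := by
      rw [← Real.rpow_add_one' hx0.le (by norm_num)]
      norm_num
    have h2 : x ^ (-(3 / 2) : ℝ) ≤ x ^ (-(5 / 4) : ℝ) :=
      Real.rpow_le_rpow_of_exponent_le hx1 (by norm_num)
    have h3 : x ^ (-(5 / 2) : ℝ) ≤ x ^ (-(5 / 4) : ℝ) :=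
      Real.rpow_le_rpow_of_exponent_le hx1 (by norm_num)
    calc (1 + x) * x ^ (-(5 / 2) : ℝ) = x ^ (-(5 / 2) : ℝ) + x ^ (-(5 / 2) : ℝ) * x := by ring
      _ ≤ _ := by rw [h1]; linarith
  filter_upwards [g1, g2, g3, g4, g5, g6] with x h1 h2 h3 h4 h5 h6
  exact ⟨h1, h2, h3, h4, h5, h6⟩

end Pool.Agent.MobQ
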