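import Mathlib
import Pool.Agent.MobQ.SS

set_option autoImplicit false

namespace Pool.Agent.MobQ

open Finset Filter Topology Pool.Agent.Helper25

set_option maxHeartbeats 4000000 in
theorem starStar_of_SW (hSW : SWLite) : StarStar := by
  intro ε hε
  obtain ⟨K, P₀, hP₀, hK⟩ := prime_sum (max 1 (20 / ε)) (by positivity)
  obtain ⟨C, hC0, hC⟩ := major hSW
  have hlogN : Tendsto (fun N : ℕ => Real.log N) atTop atTop :=
    Real.tendsto_log_atTop.comp tendsto_natCast_atTop_atTop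
  have hev := hlogN.eventually ((growth K C).and ((eventually_ge_atTop (2 : ℝ)).and
    ((eventually_ge_atTop (P₀ : ℝ)).and (eventually_ge_atTop (8 / ε)))))
  have hev2 : ∀ᶠ N : ℕ in atTop, 16 ≤ N := eventually_ge_atTop 16
  obtain ⟨N₀, hN₀⟩ := eventually_atTop.mp (hev.and hev2)
  refine ⟨N₀, fun N hN => ?_⟩
  obtain ⟨⟨⟨g1, g2, g3, g4, g5, g6⟩, hL2, hLP, hLε⟩, hN16⟩ := hN₀ N hN
  set L : ℝ := Real.log N with hL
  have hN16' : (16 : ℝ) ≤ N := by exact_mod_cast hN16
  have hN0 : (0 : ℝ) < N := by linarith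
  have hL0 : 0 < L := by linarith
  have hL1 : 1 ≤ L := by linarith
  have hexpL : Real.exp L = N := Real.exp_log hN0
  set P : ℕ := ⌈L ^ (5 / 4 : ℝ)⌉₊ with hP
  have hPge : L ^ (5 / 4 : ℝ) ≤ P := Nat.le_ceil _
  have hLle : L ≤ L ^ (5 / 4 : ℝ) := by
    calc L = L ^ (1 : ℝ) := (Real.rpow_one L).symm
      _ ≤ L ^ (5 / 4 : ℝ) := Real.rpow_le_rpow_of_exponent_le hL1 (by norm_num)
  have hPle : (P : ℝ) ≤ 2 * L ^ 2 := by
    have h1 : (P : ℝ) < L ^ (5 / 4 : ℝ) + 1 := Nat.ceil_lt_add_one (by positivity)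
    have h2 : L ^ (5 / 4 : ℝ) ≤ L ^ (2 : ℝ) := Real.rpow_le_rpow_of_exponent_le hL1 (by norm_num)
    have h3 : L ^ (2 : ℝ) = L ^ 2 := by norm_num
    rw [h3] at h2
    nlinarith
  have hPP0 : P₀ ≤ P := by
    have : (P₀ : ℝ) ≤ P := by linarith
    exact_mod_cast this
  have hP3 : 3 ≤ P := hP₀.trans hPP0
  have hP' : (0 : ℝ) < P := by exact_mod_cast (by omega : 0 < P)
  obtain ⟨I, hI, hsum⟩ := hK P hPP0
  set PP : Finset ℕ := (Ioc P (P * 4 ^ I)).filter Nat.Prime with hPPdef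
  set LL : ℝ := ∑ p ∈ PP, 1 / (p : ℝ) with hLL
  have hLL1 : 1 ≤ LL := (le_max_left _ _).trans hsum
  have hLLε : 20 / ε ≤ LL := (le_max_right _ _).trans hsum
  have hlogP0 : 0 ≤ Real.log P := Real.log_natCast_nonneg P
  have hlogPle : Real.log P ≤ Real.log (2 * L ^ 2) := Real.log_le_log hP' hPle
  -- size of the range
  have hsize : ((P * 4 ^ I : ℕ) : ℝ) ≤ Real.exp (L / 4) := by
    refine le_trans ?_ g2
    have h1 : ((4 : ℝ) ^ I) ≤ (P : ℝ) ^ (2 * K) := by
      have h2 : (4 : ℝ) ^ I = Real.exp (I * Real.log 4) := by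
        rw [mul_comm, Real.exp_mul, Real.exp_log (by norm_num), Real.rpow_natCast]
      have h3 : (P : ℝ) ^ (2 * K) = Real.exp ((2 * K : ℕ) * Real.log P) := by
        rw [mul_comm ((2 * K : ℕ) : ℝ), Real.exp_mul, Real.exp_log hP', Real.rpow_natCast]
      rw [h2, h3]
      apply Real.exp_le_exp.mpr
      have h4 : Real.log 4 ≤ 2 := by
        have : Real.log 4 = 2 * Real.log 2 := by
          rw [show (4 : ℝ) = 2 ^ 2 by norm_num, Real.log_pow]
          norm_num
        have := Real.log_two_lt_d9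
        linarith
      have h5 : 0 ≤ Real.log 4 := Real.log_nonneg (by norm_num)
      push_cast
      calc (I : ℝ) * Real.log 4 ≤ (K * Real.log P) * Real.log 4 := by gcongr
        _ ≤ (K * Real.log P) * 2 := by gcongr
        _ = 2 * K * Real.log P := by ring
    calc ((P * 4 ^ I : ℕ) : ℝ) = P * 4 ^ I := by push_cast; ring
      _ ≤ P * (P : ℝ) ^ (2 * K) := by gcongr
      _ = (P : ℝ) ^ (2 * K + 1) := by ring
      _ ≤ (2 * L ^ 2) ^ (2 * K + 1) := by gcongr
  have hexple : Real.exp (L / 4) ≤ N := by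
    rw [← hexpL]
    exact Real.exp_le_exp.mpr (by linarith)
  have hPN : P * 4 ^ I ≤ N := by
    have : ((P * 4 ^ I : ℕ) : ℝ) ≤ N := hsize.trans hexple
    exact_mod_cast this
  have hcard : PP.card ≤ P * 4 ^ I := by
    rw [hPPdef]
    refine (Finset.card_filter_le _ _).trans ?_
    rw [Nat.card_Ioc]
    omega
  have hcardR : (PP.card : ℝ) ≤ Real.exp (L / 4) := by
    refine le_trans ?_ hsize
    exact_mod_cast hcard
  have hPPprime : ∀ p ∈ PP, p.Prime := fun p hp => (mem_filter.mp hp).2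
  have hPPge : ∀ p ∈ PP, P ≤ p := fun p hp => by
    have := (mem_Ioc.mp (mem_filter.mp hp).1).1
    omega
  have hPPle : ∀ p ∈ PP, p ≤ N := fun p hp => by
    have := (mem_Ioc.mp (mem_filter.mp hp).1).2
    omega
  refine ⟨fun n => mu n - v2 PP LL n, v2 PP LL, fun n _ => by ring, ?_, ?_⟩
  · refine (v1_sq PP hPPprime P N (by omega) hPPge (hcard.trans hPN) LL hLL hLL1).trans ?_
    have h1 : 10 / LL ≤ ε / 2 := by
      rw [div_le_iff₀ hε] at hLLε
      rw [div_le_div_iff₀ (by linarith) (by norm_num)]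
      linarith
    have h2 : 4 / (P : ℝ) ≤ ε / 2 := by
      have h3 : 8 / ε ≤ P := by linarith
      rw [div_le_iff₀ hε] at h3
      rw [div_le_div_iff₀ hP' (by norm_num)]
      linarith
    have h3 : 10 / LL + 4 / (P : ℝ) ≤ ε := by linarith
    exact mul_le_mul_of_nonneg_right h3 hN0.le
  · intro θ
    have hconv : ∑ n ∈ range N, (v2 PP LL n : ℂ) *
        Complex.exp (2 * Real.pi * Complex.I * (θ : ℂ) * (n : ℂ)) =
        ∑ n ∈ range N, (v2 PP LL n : ℂ) * ex (n * θ) := by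
      apply Finset.sum_congr rfl
      intro n _
      rw [ex_eq]
    rw [hconv]
    set K0 : ℕ := ⌊(N : ℝ) / L ^ (5 / 2 : ℝ)⌋₊ with hK0
    have hLpow : 0 < L ^ (5 / 2 : ℝ) := Real.rpow_pos_of_pos hL0 _
    have hK0pos : 0 < K0 := by
      rw [hK0, Nat.floor_pos, le_div_iff₀ hLpow, one_mul]
      have h1 : L ^ (5 / 2 : ℝ) ≤ (2 * L ^ 2) ^ (2 * K + 1) * (2 * L ^ 2) := by
        have h2 : L ^ (5 / 2 : ℝ) ≤ L ^ (4 : ℝ) :=
          Real.rpow_le_rpow_of_exponent_le hL1 (by norm_num)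
        have h3 : L ^ (4 : ℝ) = L ^ 2 * L ^ 2 := by
          rw [← pow_add]
          norm_num
        rw [h3] at h2
        have h4 : (1 : ℝ) ≤ 2 * L ^ 2 := by nlinarith
        have h5 : 2 * L ^ 2 ≤ (2 * L ^ 2) ^ (2 * K + 1) := by
          calc 2 * L ^ 2 = (2 * L ^ 2) ^ 1 := (pow_one _).symm
            _ ≤ _ := pow_le_pow_right₀ h4 (by omega)
        have h6 : L ^ 2 ≤ (2 * L ^ 2) ^ (2 * K + 1) := by nlinarith
        have h7 : 0 ≤ L ^ 2 := by positivity
        nlinarith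
      have h4 : (1 : ℝ) ≤ 2 * L ^ 2 := by nlinarith
      have h5 : 2 * L ^ 2 ≤ (2 * L ^ 2) ^ (2 * K + 1) := by
        calc 2 * L ^ 2 = (2 * L ^ 2) ^ 1 := (pow_one _).symm
          _ ≤ _ := pow_le_pow_right₀ h4 (by omega)
      calc L ^ (5 / 2 : ℝ) ≤ (2 * L ^ 2) ^ (2 * K + 1) * (2 * L ^ 2) := h1
        _ ≤ Real.exp (L / 4) * Real.exp (L / 4) := by
            apply mul_le_mul g2 (h5.trans g2) (by positivity) (Real.exp_pos _).le
        _ = Real.exp (L / 2) := by
            rw [← Real.exp_add]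
            congr 1
            ring
        _ ≤ N := by
            rw [← hexpL]
            exact Real.exp_le_exp.mpr (by linarith)
    obtain ⟨r, hr1, hr2⟩ := Real.exists_rat_abs_sub_le_and_den_le θ hK0pos
    set q : ℕ := r.den with hq
    set a : ℤ := r.num with ha
    have hq1 : 1 ≤ q := r.den_pos
    have hq' : (0 : ℝ) < q := by exact_mod_cast hq1
    have hra : (r : ℝ) = (a : ℝ) / q := by
      rw [ha, hq]
      exact_mod_cast (Rat.num_div_den r).symm
    rw [hra] at hr1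
    have hcop : IsCoprime a (q : ℤ) := by
      have := r.reduced
      exact Int.isCoprime_iff_gcd_eq_one.mpr this
    have hq2 : q ≤ K0 := by exact_mod_cast hr2
    have hq2' : (q : ℝ) ≤ K0 := by exact_mod_cast hq2
    have hK0le : (K0 : ℝ) ≤ N / L ^ (5 / 2 : ℝ) := Nat.floor_le (by positivity)
    have hK0ge : (N : ℝ) / L ^ (5 / 2 : ℝ) ≤ K0 + 1 := (Nat.lt_floor_add_one _).le
    have hqN : (q : ℝ) ≤ N := by
      refine hq2'.trans (hK0le.trans ?_)
      apply div_le_self hN0.le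
      exact Real.one_le_rpow hL1 (by norm_num)
    have hθ1 : |θ - a / q| ≤ 1 / (q : ℝ) ^ 2 := by
      refine hr1.trans ?_
      apply one_div_le_one_div_of_le (by positivity)
      nlinarith
    have hθ2 : |θ - a / q| ≤ L ^ (5 / 2 : ℝ) / (q * N) := by
      refine hr1.trans ?_
      rw [div_le_div_iff₀ (by positivity) (by positivity), one_mul]
      rw [div_le_iff₀ hLpow] at hK0ge
      calc (q : ℝ) * N ≤ q * ((K0 + 1) * L ^ (5 / 2 : ℝ)) := by gcongr
        _ = L ^ (5 / 2 : ℝ) * ((K0 + 1) * q) := by ring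
    by_cases hcase : (q : ℝ) ≤ (L / 2) ^ (5 / 4 : ℝ)
    · have h1 := hC N hN16' hL2 PP hPPprime hPPle LL hLL hLL1 q hq1 hcase a θ hθ2
      refine h1.trans ?_
      have h2 : √(N : ℝ) * PP.card ≤ N * Real.exp (-(1 / 4) * L) := by
        have h3 : √(N : ℝ) = Real.exp (L / 2) := by
          rw [← hexpL, Real.exp_half L]
        rw [h3]
        calc Real.exp (L / 2) * PP.card ≤ Real.exp (L / 2) * Real.exp (L / 4) := by gcongr
          _ = Real.exp L * Real.exp (-(1 / 4) * L) := by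
              rw [← Real.exp_add, ← Real.exp_add]
              congr 1
              ring
          _ = N * Real.exp (-(1 / 4) * L) := by rw [hexpL]
      calc 14 * L ^ (5 / 2 : ℝ) * (C * N * (2 / L) ^ 4 + 2 * √N * PP.card)
          = N * (14 * L ^ (5 / 2 : ℝ) * (C * (2 / L) ^ 4)) +
            14 * L ^ (5 / 2 : ℝ) * 2 * (√N * PP.card) := by ring
        _ ≤ N * (1 / 2 * L ^ (-(3 / 5) : ℝ)) +
            14 * L ^ (5 / 2 : ℝ) * 2 * (N * Real.exp (-(1 / 4) * L)) := by gcongr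
        _ = N * (1 / 2 * L ^ (-(3 / 5) : ℝ)) +
            N * (14 * L ^ (5 / 2 : ℝ) * (2 * Real.exp (-(1 / 4) * L))) := by ring
        _ ≤ N * (1 / 2 * L ^ (-(3 / 5) : ℝ)) + N * (1 / 2 * L ^ (-(3 / 5) : ℝ)) := by gcongr
        _ = N * L ^ (-(3 / 5) : ℝ) := by ring
    · push Not at hcase
      have hL54 : 0 < L ^ (5 / 4 : ℝ) := Real.rpow_pos_of_pos hL0 _
      have hneg : L ^ (-(5 / 4) : ℝ) = 1 / L ^ (5 / 4 : ℝ) := by
        rw [Real.rpow_neg hL0.le, one_div]
      have hX : 1 / (q : ℝ) + 1 / P + ((P * 4 ^ I : ℕ) + q) * (1 + Real.log q) / N ≤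
          9 * L ^ (-(5 / 4) : ℝ) := by
        have h1 : 1 / (q : ℝ) ≤ 4 * L ^ (-(5 / 4) : ℝ) := by
          have h2 : (L / 2) ^ (5 / 4 : ℝ) = L ^ (5 / 4 : ℝ) / 2 ^ (5 / 4 : ℝ) :=
            Real.div_rpow hL0.le (by norm_num) _
          have h3 : (2 : ℝ) ^ (5 / 4 : ℝ) ≤ 4 := by
            calc (2 : ℝ) ^ (5 / 4 : ℝ) ≤ 2 ^ (2 : ℝ) :=
                  Real.rpow_le_rpow_of_exponent_le (by norm_num) (by norm_num)
              _ = 4 := by norm_num
          have h4 : (0 : ℝ) < 2 ^ (5 / 4 : ℝ) := by positivity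
          have h5 : L ^ (5 / 4 : ℝ) / 4 ≤ (L / 2) ^ (5 / 4 : ℝ) := by
            rw [h2]
            exact div_le_div_of_nonneg_left hL54.le h4 h3
          calc 1 / (q : ℝ) ≤ 1 / (L ^ (5 / 4 : ℝ) / 4) := by
                apply one_div_le_one_div_of_le (by positivity)
                linarith
            _ = 4 * L ^ (-(5 / 4) : ℝ) := by
                rw [hneg]
                field_simp
        have h2 : 1 / (P : ℝ) ≤ L ^ (-(5 / 4) : ℝ) := by
          rw [hneg]
          exact one_div_le_one_div_of_le hL54 hPge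
        have hlogq : Real.log q ≤ L := Real.log_le_log hq' hqN
        have hlogq0 : 0 ≤ Real.log q := Real.log_natCast_nonneg q
        have h3 : ((P * 4 ^ I : ℕ) : ℝ) * (1 + Real.log q) / N ≤ L ^ (-(5 / 4) : ℝ) := by
          refine le_trans ?_ g3
          rw [div_le_iff₀ hN0]
          calc ((P * 4 ^ I : ℕ) : ℝ) * (1 + Real.log q) ≤ Real.exp (L / 4) * (1 + L) := by
                gcongr
            _ = (1 + L) * Real.exp (-(3 / 4) * L) * Real.exp L := by
                rw [mul_assoc, ← Real.exp_add, mul_comm]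
                congr 2
                ring
            _ = (1 + L) * Real.exp (-(3 / 4) * L) * N := by rw [hexpL]
        have h4 : (q : ℝ) * (1 + Real.log q) / N ≤ 2 * L ^ (-(5 / 4) : ℝ) := by
          refine le_trans ?_ g6
          rw [div_le_iff₀ hN0]
          calc (q : ℝ) * (1 + Real.log q) ≤ (N / L ^ (5 / 2 : ℝ)) * (1 + L) := by
                gcongr
                exact hq2'.trans hK0le
            _ = (1 + L) * L ^ (-(5 / 2) : ℝ) * N := by
                rw [Real.rpow_neg hL0.le]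
                field_simp
        have h5 : (((P * 4 ^ I : ℕ) : ℝ) + q) * (1 + Real.log q) / N =
            ((P * 4 ^ I : ℕ) : ℝ) * (1 + Real.log q) / N + (q : ℝ) * (1 + Real.log q) / N := by
          ring
        rw [h5]
        have h6 : 0 ≤ L ^ (-(5 / 4) : ℝ) := Real.rpow_nonneg hL0.le _
        linarith
      have h1 := minor N P I (by omega) hPN LL hLL1 hq1 hcop hθ1 (9 * L ^ (-(5 / 4) : ℝ)) hX
      refine h1.trans ?_
      have h2 : √(9 * L ^ (-(5 / 4) : ℝ)) = 3 * L ^ (-(5 / 8) : ℝ) := by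
        rw [Real.sqrt_mul (by norm_num), show (9 : ℝ) = 3 ^ 2 by norm_num,
          Real.sqrt_sq (by norm_num), Real.sqrt_eq_rpow, ← Real.rpow_mul hL0.le]
        norm_num
      rw [h2]
      have h3 : 0 ≤ Real.log (2 * L ^ 2) := by
        apply Real.log_nonneg
        nlinarith
      have h4 : L ^ (1 / 40 : ℝ) * L ^ (-(5 / 8) : ℝ) = L ^ (-(3 / 5) : ℝ) := by
        rw [← Real.rpow_add hL0]
        norm_num
      have h5 : 0 ≤ L ^ (-(5 / 8) : ℝ) := Real.rpow_nonneg hL0.le _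
      calc 2 * (I : ℝ) * (4 * N * (3 * L ^ (-(5 / 8) : ℝ)))
          = N * ((24 * I) * L ^ (-(5 / 8) : ℝ)) := by ring
        _ ≤ N * (L ^ (1 / 40 : ℝ) * L ^ (-(5 / 8) : ℝ)) := by
            gcongr
            calc 24 * (I : ℝ) ≤ 24 * (K * Real.log P) := by gcongr
              _ ≤ 24 * (K * Real.log (2 * L ^ 2)) := by gcongr
              _ ≤ 24 * K * Real.log (2 * L ^ 2) * 3 := by
                  have : 0 ≤ 24 * (K : ℝ) * Real.log (2 * L ^ 2) := by positivity
                  linarith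
              _ ≤ L ^ (1 / 40 : ℝ) := g1
        _ = N * L ^ (-(3 / 5) : ℝ) := by rw [h4]

end Pool.Agent.MobQ
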